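import Pool.Agent.H283.HT.Stm

set_option autoImplicit false

namespace Pool.Agent.H695.HTSTRICT

open Pool.Agent.H283.HT

theorem dt_add (ν p q : P2) : dt ν (p + q) = dt ν p + dt ν q := by
  simp only [dt, Prod.fst_add, Prod.snd_add]
  ring

theorem dt_smul (ν p : P2) (r : ℝ) : dt ν (r • p) = r * dt ν p := by
  simp only [dt, Prod.smul_fst, Prod.smul_snd, smul_eq_mul]
  ring

theorem dt_neg (ν p : P2) : dt ν (-p) = - dt ν p := by
  simp only [dt, Prod.fst_neg, Prod.snd_neg]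
  ring

theorem det_swap (u v : P2) : det u v = - det v u := by
  simp only [det]
  ring

theorem STRICT_done (hDI : S_DI) (hPOS : S_POS) (_hTR4 : S_TR4) (hFACE : S_FACE) : S_STRICT := by
  intro Q q hQ hq a b c d t t' hab hbc hcd hda hat htb hct' ht'd
  obtain ⟨-, hsup, -, -⟩ := hDI Q hQ
  obtain ⟨hpos, -, hid, hmpi, hbd, -⟩ := hPOS Q q hQ hq
  have hF := hFACE Q q hQ hq
  by_contra hcon
  push Not at hcon
  obtain ⟨h1, h2⟩ := hcon
  have hpi := Real.pi_pos
  -- first functional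
  obtain ⟨ν₁, hν₁, hmax₁, hM⟩ := hsup (q t') (hq.mem t') (hbd t')
  obtain ⟨ν₂, hν₂, hmax₂, hM'⟩ := hsup (q t) (hq.mem t) (hbd t)
  have pbt' : 0 < det (q b) (q t') := hpos b t' (by linarith) (by linarith)
  have pat' : 0 < det (q a) (q t') := hpos a t' (by linarith) (by linarith)
  have ptd : 0 < det (q t) (q d) := hpos t d (by linarith) (by linarith)
  have ptc : 0 < det (q t) (q c) := hpos t c (by linarith) (by linarith)
  have pbc : 0 < det (q b) (q c) := hpos b c hbc (by linarith)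
  have e1 : det (q a) (q b) * dt ν₁ (q t') =
      - det (q b) (q t') * dt ν₁ (q a) + det (q a) (q t') * dt ν₁ (q b) := by
    have h := congrArg (dt ν₁) (hid a b t')
    rw [dt_smul, dt_add, dt_smul, dt_smul, det_swap (q t') (q b)] at h
    exact h
  have e2 : det (q c) (q d) * dt ν₂ (q t) =
      det (q t) (q d) * dt ν₂ (q c) - det (q t) (q c) * dt ν₂ (q d) := by
    have h := congrArg (dt ν₂) (hid c d t)
    rw [dt_smul, dt_add, dt_smul, dt_smul, det_swap (q c) (q t)] at h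
    rw [h]
    ring
  have a1 : dt ν₁ (q b) ≤ dt ν₁ (q t') := hmax₁ _ (hq.mem b)
  have a2 : - dt ν₁ (q a) ≤ dt ν₁ (q t') := by
    have := hmax₁ _ (hQ.sym _ (hq.mem a))
    rwa [dt_neg] at this
  have b1 : dt ν₂ (q c) ≤ dt ν₂ (q t) := hmax₂ _ (hq.mem c)
  have b2 : - dt ν₂ (q d) ≤ dt ν₂ (q t) := by
    have := hmax₂ _ (hQ.sym _ (hq.mem d))
    rwa [dt_neg] at this
  have f1 := mul_le_mul_of_nonneg_right h1 hM.le
  have f2 := mul_le_mul_of_nonneg_right h2 hM'.le
  have g1 : 0 ≤ det (q b) (q t') * (dt ν₁ (q t') + dt ν₁ (q a)) :=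
    mul_nonneg pbt'.le (by linarith)
  have g2 : 0 ≤ det (q a) (q t') * (dt ν₁ (q t') - dt ν₁ (q b)) :=
    mul_nonneg pat'.le (by linarith)
  have g3 : 0 ≤ det (q t) (q d) * (dt ν₂ (q t) - dt ν₂ (q c)) :=
    mul_nonneg ptd.le (by linarith)
  have g4 : 0 ≤ det (q t) (q c) * (dt ν₂ (q t) + dt ν₂ (q d)) :=
    mul_nonneg ptc.le (by linarith)
  have k1 : det (q b) (q t') * (dt ν₁ (q t') + dt ν₁ (q a)) = 0 := by nlinarith
  have k2 : det (q a) (q t') * (dt ν₁ (q t') - dt ν₁ (q b)) = 0 := by nlinarith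
  have k3 : det (q t) (q d) * (dt ν₂ (q t) - dt ν₂ (q c)) = 0 := by nlinarith
  have k4 : det (q t) (q c) * (dt ν₂ (q t) + dt ν₂ (q d)) = 0 := by nlinarith
  have m1 : dt ν₁ (q a) = - dt ν₁ (q t') := by
    rcases mul_eq_zero.1 k1 with h | h
    · exact absurd h pbt'.ne'
    · linarith
  have m2 : dt ν₁ (q b) = dt ν₁ (q t') := by
    rcases mul_eq_zero.1 k2 with h | h
    · exact absurd h pat'.ne'
    · linarith
  have m3 : dt ν₂ (q c) = dt ν₂ (q t) := by
    rcases mul_eq_zero.1 k3 with h | h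
    · exact absurd h ptd.ne'
    · linarith
  have m4 : dt ν₂ (q d) = - dt ν₂ (q t) := by
    rcases mul_eq_zero.1 k4 with h | h
    · exact absurd h ptc.ne'
    · linarith
  -- faces
  have qa : dt ν₁ (q (a + Real.pi)) = dt ν₁ (q t') := by
    rw [hq.anti, dt_neg, m1, neg_neg]
  have n1 : dt ν₁ (q c) = dt ν₁ (q t') := by
    have h := (hF b c (a + Real.pi) ν₁ hbc (by linarith) (by linarith) hν₁
      (fun p hp => by rw [m2]; exact hmax₁ p hp) (by rw [qa, m2])).1
    rw [h, m2]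
  have qd : dt ν₂ (q (d - Real.pi)) = dt ν₂ (q t) := by
    rw [hmpi, dt_neg, m4, neg_neg]
  have n2 : dt ν₂ (q b) = dt ν₂ (q t) := by
    have h := (hF (d - Real.pi) b c ν₂ (by linarith) hbc (by linarith) hν₂
      (fun p hp => by rw [qd]; exact hmax₂ p hp) (by rw [qd, m3])).1
    rw [h, qd]
  have n3 : dt ν₂ (q a) = dt ν₂ (q t) := by
    have h := (hF (d - Real.pi) a c ν₂ (by linarith) (by linarith) (by linarith) hν₂
      (fun p hp => by rw [qd]; exact hmax₂ p hp) (by rw [qd, m3])).1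
    rw [h, qd]
  -- coordinates of q a
  have r1 : det (q b) (q c) * dt ν₁ (q a) =
      det (q a) (q c) * dt ν₁ (q b) + det (q b) (q a) * dt ν₁ (q c) := by
    have h := congrArg (dt ν₁) (hid b c a)
    rw [dt_smul, dt_add, dt_smul, dt_smul] at h
    exact h
  have r2 : det (q b) (q c) * dt ν₂ (q a) =
      det (q a) (q c) * dt ν₂ (q b) + det (q b) (q a) * dt ν₂ (q c) := by
    have h := congrArg (dt ν₂) (hid b c a)
    rw [dt_smul, dt_add, dt_smul, dt_smul] at h
    exact h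
  rw [m1, m2, n1] at r1
  rw [n3, n2, m3] at r2
  have s1 : (det (q b) (q c) + det (q a) (q c) + det (q b) (q a)) * dt ν₁ (q t') = 0 := by linarith
  have s2 : (det (q a) (q c) + det (q b) (q a) - det (q b) (q c)) * dt ν₂ (q t) = 0 := by linarith
  rcases mul_eq_zero.1 s1 with h | h
  · rcases mul_eq_zero.1 s2 with h' | h'
    · linarith
    · exact hM'.ne' h'
  · exact hM.ne' h

end Pool.Agent.H695.HTSTRICT
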