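import Pool.Agent.H576.RD.Stm

set_option autoImplicit false

namespace Pool.Agent.H695

open Pool.Agent.H576.RD

private theorem r20_sq (h θ : E) (L κ : ℝ) (hh : ‖h‖ = L / 2) (ho : inner ℝ θ h = 0)
    (hθ : ‖θ‖ = 1) : ‖h - κ • θ‖ ^ 2 = L ^ 2 / 4 + κ ^ 2 := by
  rw [norm_sub_sq_real, inner_smul_right, real_inner_comm, ho, hh, norm_smul, hθ,
    Real.norm_eq_abs, mul_one, sq_abs]
  ring

private theorem r20_core (p h θ : E) (L κ : ℝ) (hL : 0 ≤ L) (hκ : 0 ≤ κ) (hp : ‖p‖ ≤ 1)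
    (hh : ‖h‖ = L / 2) (ho : inner ℝ θ h = 0) (hθ : ‖θ‖ = 1) (hd : L ≤ ‖p - (h - κ • θ)‖) :
    ‖p + (h + κ • θ)‖ ≤ √(2 * (1 - L ^ 2 / 4) + 2 * κ ^ 2) + 2 * κ := by
  have h1 := parallelogram_law_with_norm ℝ p (h - κ • θ)
  have h2 := r20_sq h θ L κ hh ho hθ
  have h3 : L ^ 2 ≤ ‖p - (h - κ • θ)‖ ^ 2 := pow_le_pow_left₀ hL hd 2
  have h4 : ‖p‖ ^ 2 ≤ 1 := pow_le_one₀ (norm_nonneg p) hp
  have h5 : ‖p + (h - κ • θ)‖ ≤ √(2 * (1 - L ^ 2 / 4) + 2 * κ ^ 2) := by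
    apply Real.le_sqrt_of_sq_le
    nlinarith
  have h6 : p + (h + κ • θ) = (p + (h - κ • θ)) + (2 * κ) • θ := by
    rw [two_mul, add_smul]
    abel
  rw [h6]
  refine (norm_add_le _ _).trans ?_
  rw [norm_smul, hθ, mul_one, Real.norm_eq_abs, abs_of_nonneg (by linarith : (0 : ℝ) ≤ 2 * κ)]
  linarith

/-- R20a -/
theorem rd_r20a : Pool.Agent.H576.RD.S_R20a := by
  intro X L κ a b θ hcov ha hb hab hlens hL1 hL2 hκ hθ ho
  obtain ⟨u, hu, hu1⟩ := hcov ((1 / 2 : ℝ) • (a + b) + κ • θ)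
  have hL0 : 0 ≤ L := by linarith
  have hκ0 : 0 ≤ κ := by linarith
  set h : E := (1 / 2 : ℝ) • (b - a) with hh
  have hhn : ‖h‖ = L / 2 := by
    rw [hh, norm_smul, hab, Real.norm_eq_abs, abs_of_pos (by norm_num : (0 : ℝ) < 1 / 2)]
    ring
  have hho : inner ℝ θ h = 0 := by
    rw [hh, inner_smul_right, ho, mul_zero]
  have hhn' : ‖-h‖ = L / 2 := by rw [norm_neg, hhn]
  have hho' : inner ℝ θ (-h) = 0 := by rw [inner_neg_right, hho, neg_zero]
  set q : E := (1 / 2 : ℝ) • (a + b) + κ • θ with hq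
  have eb : b - q = h - κ • θ := by
    rw [hq, hh, smul_add, smul_sub]
    have : b = (1 / 2 : ℝ) • b + (1 / 2 : ℝ) • b := by
      rw [← add_smul]; norm_num
    nth_rewrite 1 [this]
    abel
  have ea : a - q = -h - κ • θ := by
    rw [hq, hh, smul_add, smul_sub]
    have : a = (1 / 2 : ℝ) • a + (1 / 2 : ℝ) • a := by
      rw [← add_smul]; norm_num
    nth_rewrite 1 [this]
    abel
  have hbig : 1 < L ^ 2 / 4 + κ ^ 2 := by nlinarith
  have hne : ∀ c : E, ‖c - q‖ ^ 2 = L ^ 2 / 4 + κ ^ 2 → u ≠ c := by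
    rintro c hc rfl
    have : ‖u - q‖ ^ 2 ≤ 1 := pow_le_one₀ (norm_nonneg _) hu1
    linarith
  refine ⟨u, hu, hu1, hne a ?_, hne b ?_, ?_⟩
  · rw [ea]; exact r20_sq (-h) θ L κ hhn' hho' hθ
  · rw [eb]; exact r20_sq h θ L κ hhn hho hθ
  · by_cases hc : ‖u - a‖ < L
    · left
      have h1 := hlens u hu hc
      refine ⟨h1, ?_⟩
      have e1 : u - b = (u - q) - (h - κ • θ) := by rw [← eb]; abel
      have e2 : u - a = (u - q) + (h + κ • θ) := by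
        have : h + κ • θ = -(a - q) := by rw [ea]; abel
        rw [this]; abel
      rw [e2]
      rw [e1] at h1
      exact r20_core (u - q) h θ L κ hL0 hκ0 hu1 hhn hho hθ h1
    · right
      have h1 : L ≤ ‖u - a‖ := not_lt.1 hc
      refine ⟨h1, ?_⟩
      have e1 : u - a = (u - q) - (-h - κ • θ) := by rw [← ea]; abel
      have e2 : u - b = (u - q) + (-h + κ • θ) := by
        have : -h + κ • θ = -(b - q) := by rw [eb]; abel
        rw [this]; abel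
      rw [e2]
      rw [e1] at h1
      exact r20_core (u - q) (-h) θ L κ hL0 hκ0 hu1 hhn' hho' hθ h1

end Pool.Agent.H695
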