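import Pool.Agent.H683.BW.Stm

/-!
# S_PUMP: decomposition of an accepted word into a short accepted word and short cycles
-/

set_option autoImplicit false
set_option linter.all false

namespace Pool.Agent.H695.BW

open Pool.Agent.H683.BW

section
variable {Q α : Type} {step : Q → α → Option Q}

theorem run_append (u w : List α) (q : Q) :
    run step q (u ++ w) = (run step q u).bind fun q' => run step q' w := by
  induction u generalizing q with
  | nil => simp [run]
  | cons a u ih =>
    simp only [List.cons_append, run]
    cases h : step q a with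
    | none => simp
    | some q' => simp [ih]

theorem run_append_some {u w : List α} {q f : Q} (h : run step q (u ++ w) = some f) :
    ∃ p, run step q u = some p ∧ run step p w = some f := by
  rw [run_append, Option.bind_eq_some_iff] at h
  exact h

theorem run_append_of {u w : List α} {q p : Q} (h : run step q u = some p) :
    run step q (u ++ w) = run step p w := by
  rw [run_append, h]
  rfl

theorem run_mem {S : Finset Q} (hS : ∀ q ∈ S, ∀ a q', step q a = some q' → q' ∈ S) (w : List α)
    {q p : Q} (hq : q ∈ S) (h : run step q w = some p) : p ∈ S := by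
  induction w generalizing q with
  | nil =>
    simp only [run, Option.some.injEq] at h
    rw [← h]
    exact hq
  | cons a w ih =>
    simp only [run] at h
    rw [Option.bind_eq_some_iff] at h
    obtain ⟨q', h1, h2⟩ := h
    exact ih (hS q hq a q' h1) h2

end

theorem pump_aux (Q α : Type) [DecidableEq Q] [DecidableEq α] (step : Q → α → Option Q)
    (S : Finset Q) (q0 : Q) (hq0 : q0 ∈ S) (hS : ∀ q ∈ S, ∀ a q', step q a = some q' → q' ∈ S)
    (f : Q) : ∀ (n : ℕ) (z : List α), z.length = n → run step q0 z = some f →
    ∃ (z0 : List α) (C : List (Q × List α)), run step q0 z0 = some f ∧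
      z0.length ≤ (S.card + 1) ^ 2 ∧
      (∀ q, (∃ i, run step q0 (z.take i) = some q) → ∃ i, run step q0 (z0.take i) = some q) ∧
      (∀ p ∈ C, run step p.1 p.2 = some p.1 ∧ p.2 ≠ [] ∧ p.2.length ≤ S.card ∧
        ∃ i, run step q0 (z0.take i) = some p.1) ∧
      ∀ a, z.count a = z0.count a + (C.map fun p => p.2.count a).sum := by
  classical
  intro n
  induction n using Nat.strong_induction_on with
  | _ n ih =>
  intro z hzn hz
  by_cases hlen : z.length ≤ (S.card + 1) ^ 2
  · exact ⟨z, [], hz, hlen, fun q h => h, by simp, by simp⟩
  push Not at hlen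
  obtain ⟨N, hN⟩ : ∃ N, N = S.card := ⟨_, rfl⟩
  rw [← hN] at hlen
  -- the states
  have hst : ∀ i, ∃ q, run step q0 (z.take i) = some q ∧ run step q (z.drop i) = some f := by
    intro i
    apply run_append_some
    rw [List.take_append_drop]
    exact hz
  choose st hst1 hst2 using hst
  have hstS : ∀ i, st i ∈ S := fun i => run_mem hS _ hq0 (hst1 i)
  -- the marks
  have hm : ∀ q : Q, ∃ m : ℕ, (∃ i, run step q0 (z.take i) = some q) →
      run step q0 (z.take m) = some q := by
    intro q
    by_cases h : ∃ i, run step q0 (z.take i) = some q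
    · obtain ⟨i, hi⟩ := h
      exact ⟨i, fun _ => hi⟩
    · exact ⟨0, fun h' => absurd h' h⟩
  choose m hm using hm
  have hwin : ∃ j, j ≤ N ∧ ∀ q ∈ S, m q / (N + 1) ≠ j := by
    by_contra hcon
    push Not at hcon
    have hsub : Finset.range (N + 1) ⊆ S.image fun q => m q / (N + 1) := by
      intro j hj
      rw [Finset.mem_range] at hj
      obtain ⟨q, hq, hqj⟩ := hcon j (by omega)
      exact Finset.mem_image.2 ⟨q, hq, hqj⟩
    have h1 := Finset.card_le_card hsub
    have h2 := Finset.card_image_le (s := S) (f := fun q => m q / (N + 1))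
    rw [Finset.card_range] at h1
    omega
  obtain ⟨j, hjN, hj⟩ := hwin
  obtain ⟨i1, hi1, i2, hi2, hne, heq⟩ := Finset.exists_ne_map_eq_of_card_lt_of_maps_to
    (s := Finset.range (N + 1)) (t := S) (f := fun i => st (j * (N + 1) + i))
    (by rw [Finset.card_range]; omega) (fun i _ => hstS _)
  rw [Finset.mem_range] at hi1 hi2
  obtain ⟨s, t, hst', hs1, ht1, hseq⟩ : ∃ s t : ℕ, s < t ∧ j * (N + 1) ≤ s ∧ t ≤ j * (N + 1) + N ∧
      st s = st t := by
    rcases Nat.lt_or_gt_of_ne hne with h | h
    · exact ⟨j * (N + 1) + i1, j * (N + 1) + i2, by omega, by omega, by omega, heq⟩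
    · exact ⟨j * (N + 1) + i2, j * (N + 1) + i1, by omega, by omega, by omega, heq.symm⟩
  have hjm : j * (N + 1) ≤ N * (N + 1) := Nat.mul_le_mul_right _ hjN
  have hsq : (N + 1) ^ 2 = N * (N + 1) + N + 1 := by ring
  have htl : t < z.length := by omega
  -- the new word
  obtain ⟨z', hz'⟩ : ∃ z', z' = z.take s ++ z.drop t := ⟨_, rfl⟩
  obtain ⟨cy, hcy⟩ : ∃ cy, cy = (z.drop s).take (t - s) := ⟨_, rfl⟩
  have hcyl : cy.length = t - s := by
    rw [hcy, List.length_take, List.length_drop]
    omega
  have htake : z.take t = z.take s ++ cy := by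
    rw [hcy, ← List.take_add]
    congr 1
    omega
  have hzdec : z = z.take s ++ cy ++ z.drop t := by
    rw [← htake, List.take_append_drop]
  have hrun : run step q0 z' = some f := by
    rw [hz', run_append_of (hst1 s), hseq]
    exact hst2 t
  have hcyrun : run step (st s) cy = some (st s) := by
    have h1 := hst1 t
    rw [htake, run_append_of (hst1 s)] at h1
    rw [h1, hseq]
  have hlen' : z'.length < n := by
    rw [hz', List.length_append, List.length_take, List.length_drop]
    omega
  obtain ⟨z0, C, h1, h2, h3, h4, h5⟩ := ih z'.length hlen' z' rfl hrun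
  -- visited states
  have hvis : ∀ q, (∃ i, run step q0 (z.take i) = some q) →
      ∃ i, run step q0 (z'.take i) = some q := by
    intro q hq
    have hmq := hm q hq
    have hqS : q ∈ S := run_mem hS _ hq0 hmq
    have hjq := hj q hqS
    have hcase : m q < j * (N + 1) ∨ j * (N + 1) + N < m q := by
      by_contra hcon
      push Not at hcon
      apply hjq
      apply Nat.div_eq_of_lt_le
      · exact hcon.1
      · rw [add_mul, one_mul]
        omega
    rcases hcase with hlt | hgt
    · refine ⟨m q, ?_⟩
      have hlts : (z.take s).length = s := by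
        rw [List.length_take]
        omega
      rw [hz', List.take_append_of_le_length (by rw [hlts]; omega), List.take_take,
        min_eq_left (by omega)]
      exact hmq
    · refine ⟨m q - (t - s), ?_⟩
      have hlts : (z.take s).length = s := by
        rw [List.length_take]
        omega
      have e1 : z'.take (m q - (t - s)) = z.take s ++ (z.drop t).take (m q - t) := by
        rw [hz', List.take_append, hlts, List.take_of_length_le (by rw [hlts]; omega)]
        congr 2
        omega
      have e2 : z.take (m q) = z.take t ++ (z.drop t).take (m q - t) := by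
        rw [← List.take_add]
        congr 1
        omega
      rw [e1, run_append_of (hst1 s), hseq]
      rw [e2, run_append_of (hst1 t)] at hmq
      exact hmq
  refine ⟨z0, (st s, cy) :: C, h1, h2, fun q hq => h3 q (hvis q hq), ?_, ?_⟩
  · intro p hp
    rcases List.mem_cons.1 hp with rfl | hp
    · refine ⟨hcyrun, ?_, ?_, ?_⟩
      · intro h
        have h' : cy = [] := h
        rw [h'] at hcyl
        simp at hcyl
        omega
      · show cy.length ≤ S.card
        omega
      · exact h3 _ (hvis _ ⟨s, hst1 s⟩)
    · exact h4 p hp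
  · intro a
    have e : z.count a = z'.count a + cy.count a := by
      conv_lhs => rw [hzdec]
      rw [hz', List.count_append, List.count_append, List.count_append]
      omega
    rw [e, h5 a]
    simp only [List.map_cons, List.sum_cons]
    omega

theorem PUMP : S_PUMP := by
  intro Q α _ _ step S q0 hq0 hS z f hz
  obtain ⟨z0, C, h1, h2, _, h4, h5⟩ := pump_aux Q α step S q0 hq0 hS f z.length z rfl hz
  refine ⟨z0, C, h1, h2, ?_, h5⟩
  intro p hp
  obtain ⟨g1, g2, g3, i, hi⟩ := h4 p hp
  exact ⟨g1, g2, g3, z0.take i, z0.drop i, (List.take_append_drop i z0).symm, hi⟩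

end Pool.Agent.H695.BW
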