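import Pool.Agent.H979.FC.Stm

set_option autoImplicit false
set_option linter.all false

open MeasureTheory ProbabilityTheory Finset
open scoped ENNReal NNReal

namespace Pool.Agent.H695

open Pool.Agent.H979.FR Pool.Agent.H979.FC

section Lemmas
variable {V : Type}

theorem fc_steps_card (x : V) (l : List V) : (steps x l).card ≤ l.length := by
  classical
  induction l generalizing x with
  | nil => simp [steps]
  | cons y l ih =>
    rw [steps, List.length_cons]
    exact (Finset.card_insert_le _ _).trans (Nat.succ_le_succ (ih y))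

theorem fc_steps_mem (G : SimpleGraph V) (x : V) (l : List V) (h : List.IsChain G.Adj (x :: l))
    (i : V × List V) (hi : i ∈ steps x l) : ∃ y z, i = (y, [z]) ∧ G.Adj y z := by
  classical
  induction l generalizing x with
  | nil => simp [steps] at hi
  | cons y l ih =>
    rw [steps, Finset.mem_insert] at hi
    rw [List.isChain_cons_cons] at h
    rcases hi with rfl | hi
    · exact ⟨x, y, rfl, h.1⟩
    · exact ih y h.2 hi

/-- grouping a sum over paths by the length -/
theorem fc_tsum_len (F : V × List V → ℝ≥0∞) (S : ℕ → Set (V × List V)) (c : ℕ → ℝ≥0∞)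
    (N : ℕ → ℕ) (hF : ∀ p, F p ≠ 0 → p ∈ S p.2.length) (hc : ∀ p, F p ≤ c p.2.length)
    (hN : ∀ k, c k ≠ 0 → (S k).encard ≤ (N k : ℕ∞)) :
    ∑' p, F p ≤ ∑' k, (N k : ℝ≥0∞) * c k := by
  classical
  have h1 : ∑' p, F p = ∑' k : ℕ, ∑' p : V × List V, (if k = p.2.length then F p else 0) := by
    rw [ENNReal.tsum_comm]
    refine tsum_congr fun p => ?_
    rw [tsum_ite_eq]
  rw [h1]
  refine ENNReal.tsum_le_tsum fun k => ?_
  have h2 : ∀ p : V × List V, (if k = p.2.length then F p else 0) ≤
      (S k).indicator (fun _ => c k) p := by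
    intro p
    by_cases hk : k = p.2.length
    · rw [if_pos hk]
      by_cases hp : F p = 0
      · rw [hp]; exact zero_le'
      · have := hF p hp
        rw [← hk] at this
        rw [Set.indicator_of_mem this, hk]
        exact hc p
    · rw [if_neg hk]
      exact zero_le'
  refine (ENNReal.tsum_le_tsum h2).trans ?_
  rw [← _root_.tsum_subtype, ENNReal.tsum_set_const]
  by_cases h0 : c k = 0
  · rw [h0, mul_zero, mul_zero]
  · refine mul_le_mul_left ?_ _
    have := hN k h0
    calc (((S k).encard : ℕ∞) : ℝ≥0∞) ≤ (((N k : ℕ∞)) : ℝ≥0∞) := by exact_mod_cast this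
      _ = (N k : ℝ≥0∞) := by simp

end Lemmas

/-- **TWO** -/
theorem fc_two (hcmp : S_CMP) (hrep : S_REP) (hpc : S_PCNT) : S_TWO := by
  classical
  intro V _ _ _ G _ d hd hdeg lam lam' t t' hlam ht hHH o
  rw [hrep V G d hd hdeg lam t t.2 o, hrep V G d hd hdeg lam' t' t'.2 o]
  obtain ⟨μ, hμ⟩ : ∃ μ : V × List V → ℝ≥0, μ = fw G d lam t := ⟨_, rfl⟩
  obtain ⟨μ', hμ'⟩ : ∃ μ' : V × List V → ℝ≥0, μ' = fw G d lam' t' := ⟨_, rfl⟩
  obtain ⟨μ0, hμ0⟩ : ∃ μ0 : V × List V → ℝ≥0,
    μ0 = fun i => if i.2.length ≤ 1 then μ i else min (μ i) (μ' i) := ⟨_, rfl⟩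
  obtain ⟨ν, hν⟩ : ∃ ν : V × List V → ℝ≥0, ν = fun i => μ i - μ0 i := ⟨_, rfl⟩
  obtain ⟨a, ha⟩ : ∃ a : ℝ, a = lam * q 1 t / d := ⟨_, rfl⟩
  have hd0 : (0 : ℝ) < d := by exact_mod_cast hd
  have hq : ∀ (k : ℕ) (s : ℝ≥0), 0 ≤ q k s := by
    intro k s
    unfold q
    positivity
  have ha0 : 0 < a := by
    rw [ha]
    have : 0 < q 1 (t : ℝ) := by
      unfold q
      have : (0 : ℝ) < t := by exact_mod_cast ht
      positivity
    have h2 : (0 : ℝ) < lam := by exact_mod_cast hlam
    positivity
  have hle : ∀ i, μ0 i ≤ μ i := by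
    intro i
    rw [hμ0]
    dsimp only
    split_ifs
    · exact le_rfl
    · exact min_le_left _ _
  have hsum : μ = fun i => μ0 i + ν i := by
    funext i
    rw [hν]
    exact (add_tsub_cancel_of_le (hle i)).symm
  -- values
  have hedge : ∀ y z, G.Adj y z → μ (y, [z]) = (lam * q 1 t / d : ℝ).toNNReal := by
    intro y z hyz
    rw [hμ, fw, if_pos ⟨by simp, by simpa using hyz⟩]
    simp
  have hedge' : ∀ y z, G.Adj y z → μ' (y, [z]) = (lam' * q 1 t' / d : ℝ).toNNReal := by
    intro y z hyz
    rw [hμ', fw, if_pos ⟨by simp, by simpa using hyz⟩]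
    simp
  have hedge0 : ∀ y z, G.Adj y z → μ0 (y, [z]) = (lam * q 1 t / d : ℝ).toNNReal := by
    intro y z hyz
    rw [← hedge y z hyz, hμ0]
    simp
  have hνc : ∀ p, ν p ≠ 0 → List.IsChain G.Adj (p.1 :: p.2) ∧ 2 ≤ p.2.length := by
    intro p hp
    constructor
    · by_contra hch
      apply hp
      rw [hν]
      have : μ p = 0 := by rw [hμ, fw, if_neg (fun h => hch h.2)]
      simp [this]
    · by_contra hlen
      apply hp
      rw [hν, hμ0]
      have : p.2.length ≤ 1 := by omega
      simp [this]
  have hνv : ∀ p, ν p ≠ 0 → ν p = ((lam * q p.2.length t - lam' * q p.2.length t') /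
      (d : ℝ) ^ p.2.length : ℝ).toNNReal := by
    intro p hp
    obtain ⟨h1, h2⟩ := hνc p hp
    have hne : p.2 ≠ [] := by
      intro h
      rw [h] at h2
      simp at h2
    rw [hν, hμ0]
    dsimp only
    rw [if_neg (by omega), tsub_min, hμ, hμ', fw, fw, if_pos ⟨hne, h1⟩, if_pos ⟨hne, h1⟩,
      NNReal.sub_def, Real.coe_toNNReal _ (by have := hq p.2.length t; positivity),
      Real.coe_toNNReal _ (by have := hq p.2.length t'; positivity), sub_div]
  rw [← hμ, ← hμ', hsum]
  have hC1 : 1 ≤ (1 - Real.exp (-a))⁻¹ := by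
    have h1 : 0 < 1 - Real.exp (-a) := by
      rw [sub_pos, Real.exp_lt_one_iff]
      linarith
    rw [one_le_inv₀ h1]
    linarith [Real.exp_pos (-a)]
  refine hcmp V o μ0 ν μ' a ha0 ?_ ?_
  · intro x l hxl i hi
    obtain ⟨h1, h2⟩ := hνc (x, l) hxl
    obtain ⟨y, z, rfl, hyz⟩ := fc_steps_mem G x l h1 i hi
    rw [hedge0 y z hyz, ← ha]
    exact Real.le_coe_toNNReal a
  · intro i
    by_cases hi : ∃ y z, i = (y, [z]) ∧ G.Adj y z
    · obtain ⟨y, z, rfl, hyz⟩ := hi
      rw [hedge0 y z hyz, hedge' y z hyz]
      obtain ⟨C, hC⟩ : ∃ C : ℝ, C = (1 - Real.exp (-a))⁻¹ := ⟨_, rfl⟩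
      rw [HH, ← ha] at hHH
      rw [← hC] at hHH hC1 ⊢
      obtain ⟨X, hX⟩ : ∃ X : ℕ → ℝ, X = fun k => (lam : ℝ) * q k t - lam' * q k t' := ⟨_, rfl⟩
      have hlen := fc_tsum_len (V := V)
        (fun p => if (y, [z]) ∈ steps p.1 p.2 then
          ENNReal.ofReal (2 * ((steps p.1 p.2).card : ℝ) * C ^ (steps p.1 p.2).card * ν p) else 0)
        (fun k => {p : V × List V | List.IsChain G.Adj (p.1 :: p.2) ∧ p.2.length = k ∧
          (y, [z]) ∈ steps p.1 p.2})
        (fun k => if 2 ≤ k then ENNReal.ofReal (2 * (k : ℝ) * C ^ k * (X k / (d : ℝ) ^ k)) else 0)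
        (fun k => k * d ^ (k - 1)) ?_ ?_ ?_
      · refine (add_le_add_right hlen _).trans ?_
        have hterm : ∀ k : ℕ, ((k * d ^ (k - 1) : ℕ) : ℝ≥0∞) *
            (if 2 ≤ k then ENNReal.ofReal (2 * (k : ℝ) * C ^ k * (X k / (d : ℝ) ^ k)) else 0) =
            ENNReal.ofReal (1 / d) * (2 * (if 2 ≤ k then ENNReal.ofReal
              ((k : ℝ) ^ 2 * C ^ k * X k) else 0)) := by
          intro k
          split_ifs with hk
          · have e1 : ((k * d ^ (k - 1) : ℕ) : ℝ≥0∞) = ENNReal.ofReal ((k : ℝ) * (d : ℝ) ^ (k - 1)) := by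
              rw [← ENNReal.ofReal_natCast]
              push_cast
              rfl
            have e2 : (2 : ℝ≥0∞) = ENNReal.ofReal 2 := by simp
            rw [e1, e2, ← ENNReal.ofReal_mul (by positivity), ← ENNReal.ofReal_mul (by positivity),
              ← ENNReal.ofReal_mul (by positivity)]
            congr 1
            have e3 : (d : ℝ) ^ k = (d : ℝ) ^ (k - 1) * d := by
              rw [← pow_succ]
              congr 1
              omega
            rw [e3]
            field_simp
          · simp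
        rw [tsum_congr hterm, ENNReal.tsum_mul_left, ENNReal.tsum_mul_left]
        have e4 : (((lam * q 1 t / d : ℝ).toNNReal : ℝ≥0) : ℝ≥0∞) =
            ENNReal.ofReal (1 / d) * ENNReal.ofReal (lam * q 1 t) := by
          rw [← ENNReal.ofReal_mul (by positivity)]
          change ENNReal.ofReal _ = _
          congr 1
          ring
        have e5 : (((lam' * q 1 t' / d : ℝ).toNNReal : ℝ≥0) : ℝ≥0∞) =
            ENNReal.ofReal (1 / d) * ENNReal.ofReal (lam' * q 1 t') := by
          rw [← ENNReal.ofReal_mul (by positivity)]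
          change ENNReal.ofReal _ = _
          congr 1
          ring
        rw [e4, e5, ← mul_add]
        refine mul_le_mul_right ?_ _
        rw [hX]
        exact hHH
      · intro p hp
        split_ifs at hp with hs
        · by_cases hνp : ν p = 0
          · rw [hνp] at hp
            simp at hp
          · exact ⟨(hνc p hνp).1, rfl, hs⟩
        · exact absurd rfl hp
      · intro p
        split_ifs with hs h2 h2
        · by_cases hνp : ν p = 0
          · rw [hνp]
            simp
          · have hv := hνv p hνp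
            have hpos : 0 < X p.2.length / (d : ℝ) ^ p.2.length := by
              by_contra hneg
              apply hνp
              rw [hv, Real.toNNReal_eq_zero]
              rw [hX] at hneg
              exact not_lt.1 hneg
            have hv' : ((ν p : ℝ≥0) : ℝ) = X p.2.length / (d : ℝ) ^ p.2.length := by
              rw [hv, Real.coe_toNNReal _ (by rw [hX] at hpos; exact hpos.le), hX]
            rw [hv']
            apply ENNReal.ofReal_le_ofReal
            have hcard := fc_steps_card p.1 p.2
            have hcard' : ((steps p.1 p.2).card : ℝ) ≤ (p.2.length : ℝ) := by exact_mod_cast hcard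
            have hpw : C ^ (steps p.1 p.2).card ≤ C ^ p.2.length := pow_le_pow_right₀ hC1 hcard
            have hC0 : 0 ≤ C ^ (steps p.1 p.2).card := by positivity
            gcongr
        · by_cases hνp : ν p = 0
          · rw [hνp]
            simp
          · exact absurd (hνc p hνp).2 h2
        · exact zero_le'
        · exact le_rfl
      · intro k hk
        have h2 : 2 ≤ k := by
          by_contra h
          exact hk (if_neg h)
        exact hpc V G d hd hdeg k (by omega) (y, [z])
    · have hz : ∀ p : V × List V, (if i ∈ steps p.1 p.2 then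
          ENNReal.ofReal (2 * ((steps p.1 p.2).card : ℝ) *
            ((1 - Real.exp (-a))⁻¹) ^ (steps p.1 p.2).card * ν p) else 0) = 0 := by
        intro p
        split_ifs with hp
        · by_cases hνp : ν p = 0
          · rw [hνp]; simp
          · exact absurd (fc_steps_mem G p.1 p.2 (hνc p hνp).1 i hp) hi
        · rfl
      rw [ENNReal.tsum_eq_zero.2 hz, add_zero]
      have : μ0 i ≤ μ' i := by
        rw [hμ0]
        dsimp only
        split_ifs with hl
        · have : μ i = 0 := by
            rw [hμ, fw, if_neg]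
            rintro ⟨h1, h2⟩
            apply hi
            obtain ⟨y, l⟩ := i
            match l, h1, h2, hl with
            | [z], _, h2, _ => exact ⟨y, z, rfl, by simpa using h2⟩
          rw [this]
          exact zero_le'
        · exact min_le_right _ _
      exact_mod_cast this

end Pool.Agent.H695
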