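import Pool.Agent.H867.FT.Gen8
import Pool.Agent.H671.FT867PSN
import Pool.Agent.H707.FT867PSG

/-!
# CPL: local rings finite over a power series ring are complete
-/

set_option autoImplicit false

namespace Pool.Agent.H695.FT867

open Pool.Agent.H867.FT TensorProduct

/-- finite modules over precomplete rings are precomplete -/
theorem precomplete_of_finite {R : Type} [CommRing R] (I : Ideal R) [IsPrecomplete I R]
    (M : Type) [AddCommGroup M] [Module R M] [Module.Finite R M] : IsPrecomplete I M := by
  rw [← AdicCompletion.of_surjective_iff]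
  intro y
  obtain ⟨t, rfl⟩ := AdicCompletion.ofTensorProduct_surjective_of_finite I M y
  induction t using TensorProduct.induction_on with
  | zero => exact ⟨0, by rw [map_zero, map_zero]⟩
  | tmul r x =>
    obtain ⟨r', rfl⟩ := AdicCompletion.of_surjective I R r
    refine ⟨r' • x, ?_⟩
    rw [AdicCompletion.ofTensorProduct_tmul, map_smul]
    ext n
    rw [AdicCompletion.val_smul_apply, AdicCompletion.smul_eval]
    rfl
  | add a b ha hb =>
    obtain ⟨a', ha'⟩ := ha
    obtain ⟨b', hb'⟩ := hb
    exact ⟨a' + b', by rw [map_add, map_add, ha', hb']⟩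

/-- change of the ideal -/
theorem precomplete_of_pow_le {S : Type} [CommRing S] (I J : Ideal S) (r : ℕ) (h1 : I ≤ J)
    (h2 : J ^ r ≤ I) [IsPrecomplete I S] : IsPrecomplete J S := by
  have h2' : J ^ (r + 1) ≤ I := (Ideal.pow_le_pow_right (Nat.le_succ r)).trans h2
  refine ⟨fun f hf => ?_⟩
  have hP : IsPrecomplete I S := inferInstance
  obtain ⟨L, hL⟩ := hP.prec (f := fun n => f ((r + 1) * n)) (by
    intro m n hmn
    have h3 := hf (Nat.mul_le_mul_left (r + 1) hmn)
    refine h3.mono ?_
    rw [smul_eq_mul, smul_eq_mul, Ideal.mul_top, Ideal.mul_top, pow_mul]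
    exact Ideal.pow_right_mono h2' m)
  refine ⟨L, fun n => ?_⟩
  have h4 : f n ≡ f ((r + 1) * n) [SMOD (J ^ n • ⊤ : Submodule S S)] :=
    hf (Nat.le_mul_of_pos_left n (Nat.succ_pos r))
  refine h4.trans ((hL n).mono ?_)
  exact Submodule.smul_mono_left (Ideal.pow_right_mono h1 n)

/-- **CPL.** -/
theorem cpl : S_CPL := by
  intro k _ d S _ _ _ _
  let P := MvPowerSeries (Fin d) k
  have hmP : IsLocalRing.maximalIdeal P = Ideal.span (Set.range MvPowerSeries.X) :=
    (Pool.Agent.H707.FT867.psg k d).1
  have hcP : IsPrecomplete (IsLocalRing.maximalIdeal P) P := by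
    rw [hmP]
    infer_instance
  have hN : IsNoetherianRing P := inferInstanceAs (IsNoetherianRing (MvPowerSeries (Fin d) k))
  have hNS : IsNoetherianRing S := IsNoetherianRing.of_finite P S
  have hH : IsHausdorff (IsLocalRing.maximalIdeal S) S := inferInstance
  let I : Ideal S := (IsLocalRing.maximalIdeal P).map (algebraMap P S)
  have hI : IsPrecomplete I S := by
    have h1 : IsPrecomplete (IsLocalRing.maximalIdeal P) S := precomplete_of_finite _ S
    exact IsPrecomplete.map_algebraMap_iff.2 h1
  have hint : Algebra.IsIntegral P S := inferInstance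
  have hle : I ≤ IsLocalRing.maximalIdeal S := by
    rw [Ideal.map_le_iff_le_comap]
    have h1 := Ideal.isMaximal_comap_of_isIntegral_of_isMaximal (R := P)
      (IsLocalRing.maximalIdeal S)
    exact (IsLocalRing.eq_maximalIdeal h1).ge
  have hrad : IsLocalRing.maximalIdeal S ≤ I.radical := by
    rw [Ideal.radical_eq_sInf]
    refine le_sInf ?_
    rintro Q ⟨hQ, hQp⟩
    have h1 : Q.comap (algebraMap P S) = IsLocalRing.maximalIdeal P := by
      apply le_antisymm
      · apply IsLocalRing.le_maximalIdeal
        exact (Ideal.comap_isPrime _ Q).ne_top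
      · exact Ideal.map_le_iff_le_comap.1 hQ
    have h2 : (Q.comap (algebraMap P S)).IsMaximal := by
      rw [h1]
      infer_instance
    have h3 := Ideal.isMaximal_of_isIntegral_of_isMaximal_comap Q h2
    exact (IsLocalRing.eq_maximalIdeal h3).ge
  obtain ⟨r, hr⟩ := Ideal.exists_radical_pow_le_of_fg I (IsNoetherian.noetherian _)
  have hpc : IsPrecomplete (IsLocalRing.maximalIdeal S) S :=
    precomplete_of_pow_le I _ r hle ((Ideal.pow_right_mono hrad r).trans hr)
  exact { }

end Pool.Agent.H695.FT867
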