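import Pool.Agent.H867.FT.Gen4
import Pool.Agent.H671.FT867PSN

/-!
# EXN: normality of the example `X_0 T³ + X_1 T + X_2`
-/

set_option autoImplicit false
set_option linter.all false

namespace Pool.Agent.H695.FT867EXN

open Pool.Agent.H867.FT
open scoped nonZeroDivisors

/-- the localization at a prime of height one -/
theorem isDVR (P : Type) [CommRing P] [IsDomain P] [IsNoetherianRing P] [IsIntegrallyClosed P]
    (𝔭 : Ideal P) [h𝔭 : 𝔭.IsPrime] (hh : 𝔭.height = 1) :
    IsDiscreteValuationRing (Localization.AtPrime 𝔭) := by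
  have hdim : ringKrullDim (Localization.AtPrime 𝔭) = 1 := by
    rw [IsLocalization.AtPrime.ringKrullDim_eq_height 𝔭 (Localization.AtPrime 𝔭), hh]
    rfl
  haveI : IsNoetherianRing (Localization.AtPrime 𝔭) :=
    IsLocalization.isNoetherianRing 𝔭.primeCompl _ inferInstance
  haveI hic : IsIntegrallyClosed (Localization.AtPrime 𝔭) :=
    isIntegrallyClosed_of_isLocalization (R := P) (S := Localization.AtPrime 𝔭) 𝔭.primeCompl (Ideal.primeCompl_le_nonZeroDivisors 𝔭)
  haveI : Ring.KrullDimLE 1 (Localization.AtPrime 𝔭) := Ring.krullDimLE_iff.2 (le_of_eq hdim)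
  have hnf : ¬ IsField (Localization.AtPrime 𝔭) := by
    intro hf
    have := ringKrullDim_eq_zero_of_isField hf
    rw [hdim] at this
    exact one_ne_zero this
  have h : (IsIntegrallyClosed (Localization.AtPrime 𝔭) ∧
      ∃! Q : Ideal (Localization.AtPrime 𝔭), Q ≠ ⊥ ∧ Q.IsPrime) ↔
      IsDiscreteValuationRing (Localization.AtPrime 𝔭) :=
    (IsDiscreteValuationRing.TFAE (Localization.AtPrime 𝔭) hnf).out 3 0
  refine h.1 ⟨hic, IsLocalRing.maximalIdeal _, ⟨?_, inferInstance⟩, ?_⟩
  · exact fun h => hnf (IsLocalRing.isField_iff_maximalIdeal_eq.2 h)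
  · rintro Q ⟨hQ, hQ'⟩
    exact IsLocalRing.eq_maximalIdeal (hQ'.isMaximal_of_ne_bot hQ)

/-- the ring homomorphism to the dual numbers given by a derivation -/
noncomputable def dualHom {P A : Type} [CommRing P] [CommRing A] [Algebra P A]
    (D : P → P) (hadd : ∀ a b, D (a + b) = D a + D b)
    (hmul : ∀ a b, D (a * b) = a * D b + b * D a) : P →+* TrivSqZeroExt A A where
  toFun g := (algebraMap P A g, algebraMap P A (D g))
  map_one' := by
    have h1 : D 1 = 0 := by
      have := hmul 1 1
      simpa using this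
    refine TrivSqZeroExt.ext ?_ ?_
    · change algebraMap P A 1 = 1
      rw [map_one]
    · change algebraMap P A (D 1) = 0
      rw [h1, map_zero]
  map_zero' := by
    have h1 : D 0 = 0 := by
      have := hadd 0 0
      simpa using this
    refine TrivSqZeroExt.ext ?_ ?_
    · change algebraMap P A 0 = 0
      rw [map_zero]
    · change algebraMap P A (D 0) = 0
      rw [h1, map_zero]
  map_add' a b := by
    refine TrivSqZeroExt.ext ?_ ?_
    · change algebraMap P A (a + b) = algebraMap P A a + algebraMap P A b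
      rw [map_add]
    · change algebraMap P A (D (a + b)) = algebraMap P A (D a) + algebraMap P A (D b)
      rw [hadd, map_add]
  map_mul' a b := by
    refine TrivSqZeroExt.ext ?_ ?_
    · change algebraMap P A (a * b) = algebraMap P A a * algebraMap P A b
      rw [map_mul]
    · change algebraMap P A (D (a * b)) = algebraMap P A a * algebraMap P A (D b) +
        algebraMap P A (D a) * algebraMap P A b
      rw [hmul, map_add, map_mul, map_mul, mul_comm (algebraMap P A b)]

/-- extension of a derivation to a localization -/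
theorem ext_der {P A : Type} [CommRing P] [CommRing A] [Algebra P A] (M : Submonoid P)
    [IsLocalization M A] (D : P → P) (hadd : ∀ a b, D (a + b) = D a + D b)
    (hmul : ∀ a b, D (a * b) = a * D b + b * D a) :
    ∃ D' : Derivation ℤ A A, ∀ g : P, D' (algebraMap P A g) = algebraMap P A (D g) := by
  have hφ : ∀ y : M, IsUnit ((dualHom D hadd hmul : P →+* TrivSqZeroExt A A) y) := by
    intro y
    rw [TrivSqZeroExt.isUnit_iff_isUnit_fst]
    exact IsLocalization.map_units A y
  let ψ : A →+* TrivSqZeroExt A A := IsLocalization.lift (M := M) hφ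
  have hψ : ∀ g : P, ψ (algebraMap P A g) = dualHom D hadd hmul g :=
    fun g => IsLocalization.lift_eq hφ g
  have h1 : ∀ a, (ψ a).fst = a := by
    have h : ((TrivSqZeroExt.fstHom A A A : TrivSqZeroExt A A →ₐ[A] A) :
        TrivSqZeroExt A A →+* A).comp ψ = RingHom.id A := by
      apply IsLocalization.ringHom_ext M
      refine RingHom.ext fun g => ?_
      change (ψ (algebraMap P A g)).fst = algebraMap P A g
      rw [hψ]
      rfl
    intro a
    exact congrArg (fun f : A →+* A => f a) h
  let T : A →+ A :=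
    { toFun := fun a => (ψ a).snd
      map_zero' := by simp
      map_add' := by intro a b; simp }
  refine ⟨Derivation.mk' T.toIntLinearMap ?_, ?_⟩
  · intro a b
    change (ψ (a * b)).snd = a • (ψ b).snd + b • (ψ a).snd
    rw [map_mul, TrivSqZeroExt.snd_mul, h1, h1]
    simp [mul_comm]
  · intro g
    change (ψ (algebraMap P A g)).snd = _
    rw [hψ]
    rfl

section Core

variable {A L K : Type} [CommRing A] [IsDomain A] [IsDiscreteValuationRing A] [Field L]
  [Algebra A L] [IsFractionRing A L] [Field K] [Algebra L K] [Algebra A K] [IsScalarTower A L K]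

/-- elements of `A[x]`, `x` a root of a monic cubic -/
theorem adj_cubic (f : Polynomial A) (hf : f.Monic) (hd : f.natDegree = 3) (x : K)
    (hx : Polynomial.aeval x f = 0) (y : K) (hy : y ∈ Algebra.adjoin A {x}) :
    ∃ r₀ r₁ r₂ : A, y = algebraMap A K r₀ + algebraMap A K r₁ * x + algebraMap A K r₂ * x ^ 2 := by
  rw [Algebra.adjoin_singleton_eq_range_aeval] at hy
  obtain ⟨p, rfl⟩ := hy
  have h1 : Polynomial.aeval x p = Polynomial.aeval x (p %ₘ f) := by
    conv_lhs => rw [← Polynomial.modByMonic_add_div p f]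
    rw [map_add, map_mul, hx, zero_mul, add_zero]
  have h2 : (p %ₘ f).natDegree < 3 := by
    have := Polynomial.natDegree_modByMonic_lt p hf (by
      intro h
      rw [h, Polynomial.natDegree_one] at hd
      omega)
    omega
  refine ⟨(p %ₘ f).coeff 0, (p %ₘ f).coeff 1, (p %ₘ f).coeff 2, ?_⟩
  change Polynomial.aeval x p = _
  rw [h1, Polynomial.aeval_eq_sum_range' h2]
  simp [Finset.sum_range_succ, Algebra.smul_def]

theorem indep_poly (x : K)
    (hind : ∀ l₀ l₁ l₂ : L, algebraMap L K l₀ + algebraMap L K l₁ * x + algebraMap L K l₂ * x ^ 2 = 0 →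
        l₀ = 0 ∧ l₁ = 0 ∧ l₂ = 0) (g : Polynomial L) (hg : Polynomial.aeval x g = 0)
    (hd : g.natDegree < 3) : g = 0 := by
  rw [Polynomial.aeval_eq_sum_range' hd] at hg
  have h := hind (g.coeff 0) (g.coeff 1) (g.coeff 2) (by
    rw [← hg]
    simp [Finset.sum_range_succ, Algebra.smul_def])
  ext i
  rw [Polynomial.coeff_zero]
  rcases Nat.lt_or_ge i 3 with h3 | h3
  · interval_cases i
    · exact h.1
    · exact h.2.1
    · exact h.2.2
  · exact Polynomial.coeff_eq_zero_of_natDegree_lt (by omega)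

/-- first case: the leading coefficient is a unit -/
theorem case1 (h1 : S_DRV) (D : Derivation ℤ A A) (a b c : A) (x : K) (ha : IsUnit a)
    (hDa : D a = 0) (hDb : D b = 0) (hDc : D c = 1)
    (hx : algebraMap A K a * x ^ 3 + algebraMap A K b * x + algebraMap A K c = 0)
    (hind : ∀ l₀ l₁ l₂ : L, algebraMap L K l₀ + algebraMap L K l₁ * x + algebraMap L K l₂ * x ^ 2 = 0 →
        l₀ = 0 ∧ l₁ = 0 ∧ l₂ = 0) (y : K) (hy : IsIntegral A y)
    (hyx : ∃ l₀ l₁ l₂ : L, y = algebraMap L K l₀ + algebraMap L K l₁ * x + algebraMap L K l₂ * x ^ 2) :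
    ∃ g₀ g₁ g₂ : A, y = algebraMap A K g₀ + algebraMap A K g₁ * (algebraMap A K a * x) +
      algebraMap A K g₂ * (algebraMap A K a * x ^ 2 + algebraMap A K b) := by
  obtain ⟨u, hu⟩ := ha.exists_left_inv
  have hDu : D u = 0 := by
    rw [D.leibniz_of_mul_eq_one hu, hDa, smul_zero]
  have huu : IsUnit u := IsUnit.of_mul_eq_one a hu
  have hDub : D (u * b) = 0 := by rw [D.leibniz, hDu, hDb, smul_zero, smul_zero, add_zero]
  have hDuc : D (u * c) = u := by
    rw [D.leibniz, hDu, hDc, smul_zero, add_zero, smul_eq_mul, mul_one]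
  set f : Polynomial A := Polynomial.X ^ 3 + (Polynomial.C (u * b) * Polynomial.X +
    Polynomial.C (u * c)) with hfdef
  have hdeg : (Polynomial.C (u * b) * Polynomial.X + Polynomial.C (u * c)).degree < 3 :=
    lt_of_le_of_lt Polynomial.degree_linear_le (by norm_num)
  have hmon : f.Monic := Polynomial.monic_X_pow_add hdeg
  have hnd : f.natDegree = 3 := by
    rw [hfdef]
    compute_degree!
  have huK : algebraMap A K u * algebraMap A K a = 1 := by rw [← map_mul, hu, map_one]
  have hroot : Polynomial.aeval x f = 0 := by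
    rw [hfdef]
    simp only [map_add, map_mul, map_pow, Polynomial.aeval_X, Polynomial.aeval_C]
    linear_combination (algebraMap A K u) * hx - x ^ 3 * huK
  have hcoef : ∀ i, D (f.coeff i) = if i = 0 then u else 0 := by
    intro i
    have hc : f.coeff i = (if i = 3 then 1 else 0) + ((if i = 1 then u * b else 0) +
        (if i = 0 then u * c else 0)) := by
      rw [hfdef, Polynomial.coeff_add, Polynomial.coeff_add, Polynomial.coeff_X_pow,
        Polynomial.coeff_C_mul, Polynomial.coeff_X, Polynomial.coeff_C]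
      congr 2
      by_cases h : i = 1
      · subst h; simp
      · rw [if_neg h, if_neg (fun h' => h h'.symm), mul_zero]
    rw [hc, map_add, map_add]
    split_ifs <;> simp_all
  have key := h1 A L K D f u x hmon huu hcoef hroot (by
    intro g hg hgd
    rw [hnd] at hgd
    exact indep_poly x hind g hg hgd) y (by
    obtain ⟨l₀, l₁, l₂, rfl⟩ := hyx
    have hx' : x ∈ Algebra.adjoin L {x} := Algebra.self_mem_adjoin_singleton L x
    exact add_mem (add_mem (Subalgebra.algebraMap_mem _ _)
      (mul_mem (Subalgebra.algebraMap_mem _ _) hx'))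
      (mul_mem (Subalgebra.algebraMap_mem _ _) (pow_mem hx' 2))) hy
  obtain ⟨r₀, r₁, r₂, hr⟩ := adj_cubic (A := A) f hmon hnd x hroot y key
  refine ⟨r₀ - u * r₂ * b, u * r₁, u * r₂, ?_⟩
  rw [hr]
  simp only [map_sub, map_mul]
  linear_combination (- algebraMap A K r₁ * x - algebraMap A K r₂ * x ^ 2) * huK

/-- second case: the constant coefficient is a unit -/
theorem case2 (h1 : S_DRV) (D : Derivation ℤ A A) (a b c : A) (x : K) (hc : IsUnit c)
    (hDa : D a = 1) (hDb : D b = 0) (hDc : D c = 0)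
    (hx : algebraMap A K a * x ^ 3 + algebraMap A K b * x + algebraMap A K c = 0)
    (hind : ∀ l₀ l₁ l₂ : L, algebraMap L K l₀ + algebraMap L K l₁ * x + algebraMap L K l₂ * x ^ 2 = 0 →
        l₀ = 0 ∧ l₁ = 0 ∧ l₂ = 0) (y : K) (hy : IsIntegral A y)
    (hyx : ∃ l₀ l₁ l₂ : L, y = algebraMap L K l₀ + algebraMap L K l₁ * x + algebraMap L K l₂ * x ^ 2) :
    ∃ g₀ g₁ g₂ : A, y = algebraMap A K g₀ + algebraMap A K g₁ * (algebraMap A K a * x) +
      algebraMap A K g₂ * (algebraMap A K a * x ^ 2 + algebraMap A K b) := by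
  obtain ⟨u, hu⟩ := hc.exists_left_inv
  have hDu : D u = 0 := by
    rw [D.leibniz_of_mul_eq_one hu, hDc, smul_zero]
  have huu : IsUnit u := IsUnit.of_mul_eq_one c hu
  have hDub : D (u * b) = 0 := by rw [D.leibniz, hDu, hDb, smul_zero, smul_zero, add_zero]
  have hDua : D (u * a) = u := by
    rw [D.leibniz, hDu, hDa, smul_zero, add_zero, smul_eq_mul, mul_one]
  have ha0 : a ≠ 0 := by
    rintro rfl
    rw [map_zero] at hDa
    exact zero_ne_one hDa
  have huK : algebraMap A K u * algebraMap A K c = 1 := by rw [← map_mul, hu, map_one]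
  obtain ⟨z, hz⟩ : ∃ z : K, z = - algebraMap A K u * (algebraMap A K a * x ^ 2 + algebraMap A K b) :=
    ⟨_, rfl⟩
  have hxz : x * z = 1 := by
    rw [hz]
    linear_combination - (algebraMap A K u) * hx + huK
  set f : Polynomial A := Polynomial.X ^ 3 + (Polynomial.C (u * b) * Polynomial.X ^ 2 +
    Polynomial.C (u * a)) with hfdef
  have hdeg : (Polynomial.C (u * b) * Polynomial.X ^ 2 + Polynomial.C (u * a)).degree < 3 := by
    refine lt_of_le_of_lt (b := 2) ?_ (by norm_num)
    compute_degree
  have hmon : f.Monic := Polynomial.monic_X_pow_add hdeg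
  have hnd : f.natDegree = 3 := by
    rw [hfdef]
    compute_degree!
  have hroot : Polynomial.aeval z f = 0 := by
    rw [hfdef]
    simp only [map_add, map_mul, map_pow, Polynomial.aeval_X, Polynomial.aeval_C]
    have e1 : x ^ 2 * z ^ 2 = 1 := by linear_combination (x * z + 1) * hxz
    have e2 : x ^ 3 * z ^ 3 = 1 := by linear_combination (x ^ 2 * z ^ 2 + x * z + 1) * hxz
    linear_combination (z ^ 3 * algebraMap A K u) * hx - z ^ 3 * huK -
      (algebraMap A K u * algebraMap A K a) * e2 - (algebraMap A K u * algebraMap A K b * z ^ 2) * hxz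
  have hcoef : ∀ i, D (f.coeff i) = if i = 0 then u else 0 := by
    intro i
    have hc : f.coeff i = (if i = 3 then 1 else 0) + ((if i = 2 then u * b else 0) +
        (if i = 0 then u * a else 0)) := by
      rw [hfdef, Polynomial.coeff_add, Polynomial.coeff_add, Polynomial.coeff_X_pow,
        Polynomial.coeff_C_mul, Polynomial.coeff_X_pow, Polynomial.coeff_C]
      congr 2
      by_cases h : i = 2
      · subst h; simp
      · rw [if_neg h, if_neg h, mul_zero]
    rw [hc, map_add, map_add]
    split_ifs <;> simp_all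
  have ha0' : algebraMap A K a ≠ 0 := by
    rw [IsScalarTower.algebraMap_apply A L K]
    intro h
    rw [map_eq_zero] at h
    exact ha0 ((IsFractionRing.injective A L) (by rw [h, map_zero]))
  have key := h1 A L K D f u z hmon huu hcoef hroot (by
    intro g hg hgd
    rw [hnd] at hgd
    refine indep_poly z ?_ g hg hgd
    intro l₀ l₁ l₂ h
    have h' := hind l₂ l₁ l₀ (by
      linear_combination x ^ 2 * h - (algebraMap L K l₁ * x) * hxz -
        (algebraMap L K l₂ * (x * z + 1)) * hxz)
    exact ⟨h'.2.2, h'.2.1, h'.1⟩) y (by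
    obtain ⟨l₀, l₁, l₂, rfl⟩ := hyx
    have hz' : z ∈ Algebra.adjoin L {z} := Algebra.self_mem_adjoin_singleton L z
    have hx' : x ∈ Algebra.adjoin L {z} := by
      have e : x = algebraMap L K (-(algebraMap A L a)⁻¹) *
          (algebraMap L K (algebraMap A L b) * z + algebraMap L K (algebraMap A L c) * z ^ 2) := by
        have e0 : algebraMap A K a * x + algebraMap A K b * z + algebraMap A K c * z ^ 2 = 0 := by
          linear_combination z ^ 2 * hx - (algebraMap A K a * x * (x * z + 1)) * hxz -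
            (algebraMap A K b * z) * hxz
        rw [map_neg, map_inv₀, ← IsScalarTower.algebraMap_apply A L K,
          ← IsScalarTower.algebraMap_apply A L K, ← IsScalarTower.algebraMap_apply A L K]
        field_simp
        linear_combination e0
      rw [e]
      exact mul_mem (Subalgebra.algebraMap_mem _ _) (add_mem (mul_mem (Subalgebra.algebraMap_mem _ _) hz')
        (mul_mem (Subalgebra.algebraMap_mem _ _) (pow_mem hz' 2)))
    exact add_mem (add_mem (Subalgebra.algebraMap_mem _ _)
      (mul_mem (Subalgebra.algebraMap_mem _ _) hx'))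
      (mul_mem (Subalgebra.algebraMap_mem _ _) (pow_mem hx' 2))) hy
  obtain ⟨r₀, r₁, r₂, hr⟩ := adj_cubic (A := A) f hmon hnd z hroot y key
  refine ⟨r₀, - u * r₂, - u * r₁ + u ^ 2 * b * r₂, ?_⟩
  rw [hr]
  simp only [map_sub, map_mul, map_neg, map_add, map_pow]
  have e0 : algebraMap A K a * x + algebraMap A K b * z + algebraMap A K c * z ^ 2 = 0 := by
    linear_combination z ^ 2 * hx - (algebraMap A K a * x * (x * z + 1)) * hxz -
      (algebraMap A K b * z) * hxz
  linear_combination (algebraMap A K r₁) * hz + (algebraMap A K r₂ * algebraMap A K u) * e0 -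
    (algebraMap A K r₂ * z ^ 2) * huK -
    (algebraMap A K r₂ * algebraMap A K u * algebraMap A K b) * hz

end Core

section Series

variable {k : Type} [Field k] {n : ℕ}

theorem X_prime : Prime (MvPowerSeries.X 0 : MvPowerSeries (Fin (n + 1)) k) := by
  have h := (MulEquiv.prime_iff (MvPowerSeries.finSuccEquiv k n).toMulEquiv
    (p := (MvPowerSeries.X 0 : MvPowerSeries (Fin (n + 1)) k))).1
  refine h ?_
  have e : (MvPowerSeries.finSuccEquiv k n).toMulEquiv (MvPowerSeries.X 0) = PowerSeries.X :=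
    MvPowerSeries.finSuccEquiv_X_zero
  rw [e]
  exact PowerSeries.X_prime

theorem X0_not_dvd (i : Fin (n + 1)) (hi : i ≠ 0) :
    ¬ (MvPowerSeries.X 0 : MvPowerSeries (Fin (n + 1)) k) ∣ MvPowerSeries.X i := by
  classical
  rw [MvPowerSeries.X_dvd_iff]
  push Not
  refine ⟨Finsupp.single i 1, ?_, ?_⟩
  · rw [Finsupp.single_apply, if_neg hi]
  · rw [MvPowerSeries.coeff_index_single_self_X]
    exact one_ne_zero

/-- a prime of height one containing `X_0` does not contain the other variables -/
theorem not_mem (𝔭 : Ideal (MvPowerSeries (Fin (n + 1)) k)) [h𝔭 : 𝔭.IsPrime] (hh : 𝔭.height = 1)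
    (h0 : MvPowerSeries.X 0 ∈ 𝔭) (i : Fin (n + 1)) (hi : i ≠ 0) : MvPowerSeries.X i ∉ 𝔭 := by
  intro hmem
  rw [Ideal.eq_span_singleton_of_height_eq_one hh h0 X_prime, Ideal.mem_span_singleton] at hmem
  exact X0_not_dvd i hi hmem

end Series

/-- the local statement at a prime of height one -/
theorem local_case {V L K : Type} [CommRing V] [IsDomain V] [IsDiscreteValuationRing V] [Field L]
    [Algebra V L] [IsFractionRing V L] [Field K] [Algebra L K] [Algebra V K] [IsScalarTower V L K]
    (h1 : S_DRV) {k : Type} [Field k] (m : ℕ) [Algebra (MvPowerSeries (Fin (m + 3)) k) V]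
    (𝔭 : Ideal (MvPowerSeries (Fin (m + 3)) k)) [h𝔭 : 𝔭.IsPrime] [IsLocalization.AtPrime V 𝔭]
    (hh : 𝔭.height = 1) (x : K)
    (hxV : algebraMap V K (algebraMap (MvPowerSeries (Fin (m + 3)) k) V (MvPowerSeries.X 0)) * x ^ 3 +
      algebraMap V K (algebraMap (MvPowerSeries (Fin (m + 3)) k) V (MvPowerSeries.X 1)) * x +
      algebraMap V K (algebraMap (MvPowerSeries (Fin (m + 3)) k) V (MvPowerSeries.X 2)) = 0)
    (hind : ∀ l₀ l₁ l₂ : L, algebraMap L K l₀ + algebraMap L K l₁ * x + algebraMap L K l₂ * x ^ 2 = 0 →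
        l₀ = 0 ∧ l₁ = 0 ∧ l₂ = 0) (y : K) (hyV : IsIntegral V y)
    (hyx : ∃ l₀ l₁ l₂ : L, y = algebraMap L K l₀ + algebraMap L K l₁ * x + algebraMap L K l₂ * x ^ 2) :
    ∃ g₀ g₁ g₂ : V, y = algebraMap V K g₀ +
      algebraMap V K g₁ * (algebraMap V K (algebraMap (MvPowerSeries (Fin (m + 3)) k) V
        (MvPowerSeries.X 0)) * x) +
      algebraMap V K g₂ * (algebraMap V K (algebraMap (MvPowerSeries (Fin (m + 3)) k) V
        (MvPowerSeries.X 0)) * x ^ 2 +
        algebraMap V K (algebraMap (MvPowerSeries (Fin (m + 3)) k) V (MvPowerSeries.X 1))) := by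
  have hpd : ∀ i : Fin (m + 3), ∃ D : Derivation ℤ V V, ∀ j : Fin (m + 3),
      D (algebraMap (MvPowerSeries (Fin (m + 3)) k) V (MvPowerSeries.X j)) =
        if j = i then 1 else 0 := by
    intro i
    obtain ⟨D, hD⟩ := ext_der (A := V) 𝔭.primeCompl
      (fun g : MvPowerSeries (Fin (m + 3)) k => MvPowerSeries.pderiv k i g)
      (fun g h => map_add _ g h)
      (fun g h => (MvPowerSeries.pderiv k i).leibniz g h)
    refine ⟨D, fun j => ?_⟩
    rw [hD]
    by_cases hj : j = i
    · subst hj
      rw [if_pos rfl, MvPowerSeries.pderiv_X_self, map_one]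
    · rw [if_neg hj, MvPowerSeries.pderiv_X_of_ne hj, map_zero]
  have h2m : 2 % (m + 3) = 2 := Nat.mod_eq_of_lt (by omega)
  have n20 : (2 : Fin (m + 3)) ≠ 0 := by
    intro h
    have := congrArg Fin.val h
    simp [Fin.val_ofNat, h2m] at this
  have n10 : (1 : Fin (m + 3)) ≠ 0 := by
    intro h
    have := congrArg Fin.val h
    simp at this
  have n12 : (1 : Fin (m + 3)) ≠ 2 := by
    intro h
    have := congrArg Fin.val h
    simp [Fin.val_ofNat, h2m] at this
  by_cases hX : MvPowerSeries.X 0 ∈ 𝔭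
  · obtain ⟨D, hD⟩ := hpd 0
    refine case2 (L := L) h1 D _ _ _ x ?_ ?_ ?_ ?_ hxV hind y hyV hyx
    · exact IsLocalization.map_units V (⟨_, not_mem 𝔭 hh hX 2 n20⟩ : 𝔭.primeCompl)
    · rw [hD, if_pos rfl]
    · rw [hD, if_neg n10]
    · rw [hD, if_neg n20]
  · obtain ⟨D, hD⟩ := hpd 2
    refine case1 (L := L) h1 D _ _ _ x ?_ ?_ ?_ ?_ hxV hind y hyV hyx
    · exact IsLocalization.map_units V (⟨_, hX⟩ : 𝔭.primeCompl)
    · rw [hD, if_neg (Ne.symm n20)]
    · rw [hD, if_neg n12]
    · rw [hD, if_pos rfl]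

theorem exn (h1 : S_DRV) (h2 : S_KRU) : S_EXN := by
  intro k _ m L K _ _ _ _ _ _ _ _ _ x hfr hx hind y hy
  haveI : IsIntegrallyClosed (MvPowerSeries (Fin (m + 3)) k) :=
    Pool.Agent.H671.FT867PSN.psn k (m + 3)
  set P := MvPowerSeries (Fin (m + 3)) k with hP
  haveI hN : IsNoetherianRing P := inferInstanceAs (IsNoetherianRing (MvPowerSeries (Fin (m + 3)) k))
  set a : P := MvPowerSeries.X 0 with ha
  set b : P := MvPowerSeries.X 1 with hb
  set c : P := MvPowerSeries.X 2 with hc
  have hinj : Function.Injective (algebraMap P L) := IsFractionRing.injective P L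
  have ha0 : a ≠ 0 := X_prime.ne_zero
  have ha0L : algebraMap P L a ≠ 0 := by
    intro h
    exact ha0 (hinj (by rw [h, map_zero]))
  -- the power basis
  have hsp : ∀ z : K, ∃ l₀ l₁ l₂ : L,
      z = algebraMap L K l₀ + algebraMap L K l₁ * x + algebraMap L K l₂ * x ^ 2 := by
    intro z
    have hli : LinearIndependent L ![(1 : K), x, x ^ 2] := by
      rw [Fintype.linearIndependent_iff]
      intro g hg
      rw [Fin.sum_univ_three] at hg
      have := hind (g 0) (g 1) (g 2) (by
        rw [← hg]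
        simp [Algebra.smul_def])
      intro i
      fin_cases i
      · exact this.1
      · exact this.2.1
      · exact this.2.2
    have htop := hli.span_eq_top_of_card_eq_finrank (by rw [hfr]; simp)
    have hz : z ∈ Submodule.span L (Set.range ![(1 : K), x, x ^ 2]) := by rw [htop]; trivial
    rw [Submodule.mem_span_range_iff_exists_fun] at hz
    obtain ⟨g, hg⟩ := hz
    refine ⟨g 0, g 1, g 2, ?_⟩
    rw [← hg, Fin.sum_univ_three]
    simp [Algebra.smul_def]
  obtain ⟨l₀, l₁, l₂, hl⟩ : ∃ l₀ l₁ l₂ : L, y = algebraMap L K l₀ +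
      algebraMap L K l₁ * (algebraMap P K a * x) +
      algebraMap L K l₂ * (algebraMap P K a * x ^ 2 + algebraMap P K b) := by
    obtain ⟨m₀, m₁, m₂, hm⟩ := hsp y
    refine ⟨m₀ - m₂ / algebraMap P L a * algebraMap P L b, m₁ / algebraMap P L a,
      m₂ / algebraMap P L a, ?_⟩
    rw [hm, IsScalarTower.algebraMap_apply P L K, IsScalarTower.algebraMap_apply P L K]
    have : algebraMap L K (algebraMap P L a) ≠ 0 := by
      rw [Ne, map_eq_zero]
      exact ha0L
    simp only [map_sub, map_mul, map_div₀]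
    field_simp
    ring
  have huniq : ∀ g₀ g₁ g₂ : L, y = algebraMap L K g₀ + algebraMap L K g₁ * (algebraMap P K a * x) +
      algebraMap L K g₂ * (algebraMap P K a * x ^ 2 + algebraMap P K b) →
      g₀ = l₀ ∧ g₁ = l₁ ∧ g₂ = l₂ := by
    intro g₀ g₁ g₂ hg
    have h := hind ((g₀ - l₀) + (g₂ - l₂) * algebraMap P L b) ((g₁ - l₁) * algebraMap P L a)
      ((g₂ - l₂) * algebraMap P L a) (by
        rw [IsScalarTower.algebraMap_apply P L K, IsScalarTower.algebraMap_apply P L K] at hg hl
        simp only [map_add, map_sub, map_mul]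
        linear_combination hl - hg)
    have e2 : g₂ = l₂ := by
      rcases mul_eq_zero.1 h.2.2 with h' | h'
      · exact sub_eq_zero.1 h'
      · exact absurd h' ha0L
    have e1 : g₁ = l₁ := by
      rcases mul_eq_zero.1 h.2.1 with h' | h'
      · exact sub_eq_zero.1 h'
      · exact absurd h' ha0L
    have e0 := h.1
    rw [e2, sub_self, zero_mul, add_zero, sub_eq_zero] at e0
    exact ⟨e0, e1, e2⟩
  -- the local statement
  have hloc : ∀ 𝔭 : Ideal P, 𝔭.IsPrime → 𝔭.height = 1 → ∀ l ∈ ({l₀, l₁, l₂} : Set L),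
      ∃ s : P, s ∉ 𝔭 ∧ ∃ g : P, algebraMap P L s * l = algebraMap P L g := by
    intro 𝔭 h𝔭 hh
    haveI := isDVR P 𝔭 hh
    have hM : 𝔭.primeCompl ≤ P⁰ := Ideal.primeCompl_le_nonZeroDivisors 𝔭
    let V := Localization.AtPrime 𝔭
    let f : V →+* L := IsLocalization.map _ (T := P⁰) (RingHom.id P) hM
    letI : Algebra V L := f.toAlgebra
    letI : Algebra V K := ((algebraMap L K).comp f).toAlgebra
    haveI : IsScalarTower V L K := IsScalarTower.of_algebraMap_eq' rfl
    haveI : IsScalarTower P V L := IsScalarTower.of_algebraMap_eq'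
      (by rw [RingHom.algebraMap_toAlgebra, IsLocalization.map_comp, RingHomCompTriple.comp_eq])
    haveI : IsFractionRing V L :=
      IsFractionRing.isFractionRing_of_isDomain_of_isLocalization 𝔭.primeCompl V L
    have hPVK : ∀ g : P, algebraMap V K (algebraMap P V g) = algebraMap P K g := by
      intro g
      rw [IsScalarTower.algebraMap_apply V L K, ← IsScalarTower.algebraMap_apply P V L,
        ← IsScalarTower.algebraMap_apply P L K]
    haveI : IsScalarTower P V K := IsScalarTower.of_algebraMap_eq fun g => (hPVK g).symm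
    have hyV : IsIntegral V y := hy.tower_top
    have hxV : algebraMap V K (algebraMap P V a) * x ^ 3 + algebraMap V K (algebraMap P V b) * x +
        algebraMap V K (algebraMap P V c) = 0 := by
      rw [hPVK, hPVK, hPVK]
      exact hx
    have hres : ∃ g₀ g₁ g₂ : V, y = algebraMap V K g₀ +
        algebraMap V K g₁ * (algebraMap V K (algebraMap P V a) * x) +
        algebraMap V K g₂ * (algebraMap V K (algebraMap P V a) * x ^ 2 +
          algebraMap V K (algebraMap P V b)) :=
      local_case (V := Localization.AtPrime 𝔭) (L := L) h1 m 𝔭 hh x hxV hind y hyV (hsp y)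
    obtain ⟨g₀, g₁, g₂, hg⟩ := hres
    have hfin : ∀ g : V, ∃ s : P, s ∉ 𝔭 ∧ ∃ r : P,
        algebraMap P L s * algebraMap V L g = algebraMap P L r := by
      intro g
      obtain ⟨⟨r, s⟩, hrs⟩ := IsLocalization.surj 𝔭.primeCompl g
      refine ⟨s, s.2, r, ?_⟩
      rw [IsScalarTower.algebraMap_apply P V L, IsScalarTower.algebraMap_apply P V L, ← map_mul,
        mul_comm, hrs]
    obtain ⟨e0, e1, e2⟩ := huniq (algebraMap V L g₀) (algebraMap V L g₁) (algebraMap V L g₂) (by
      rw [hPVK, hPVK] at hg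
      rw [← IsScalarTower.algebraMap_apply V L K, ← IsScalarTower.algebraMap_apply V L K,
        ← IsScalarTower.algebraMap_apply V L K]
      exact hg)
    intro l hl
    rcases hl with rfl | rfl | rfl
    · rw [← e0]; exact hfin g₀
    · rw [← e1]; exact hfin g₁
    · rw [← e2]; exact hfin g₂
  obtain ⟨p₀, h₀⟩ := h2 P L l₀ (fun 𝔭 h𝔭 hh => hloc 𝔭 h𝔭 hh l₀ (by simp))
  obtain ⟨p₁, h₁⟩ := h2 P L l₁ (fun 𝔭 h𝔭 hh => hloc 𝔭 h𝔭 hh l₁ (by simp))
  obtain ⟨p₂, h₂⟩ := h2 P L l₂ (fun 𝔭 h𝔭 hh => hloc 𝔭 h𝔭 hh l₂ (by simp))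
  refine ⟨p₀, p₁, p₂, ?_⟩
  rw [hl, h₀, h₁, h₂, ← IsScalarTower.algebraMap_apply, ← IsScalarTower.algebraMap_apply,
    ← IsScalarTower.algebraMap_apply]

end Pool.Agent.H695.FT867EXN
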