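import Pool.Agent.H867.FT.Gen6
import Pool.Agent.H363.FT867PBS

/-!
# PBF: `p`-bases inside a local ring, general field
-/

set_option autoImplicit false

namespace Pool.Agent.H695.FT867

open Pool.Agent.H867.FT MvPowerSeries
open Pool.Agent.H261.FT867 (ex ex_apply coeff_smul_pow coeff_pow_of_not_dvd)

section

variable {p : ℕ} [Fact p.Prime] {k : Type} [Field k] [CharP k p] {d : ℕ}

theorem coeff_smul_pow1 (r : MvPowerSeries (Fin d) k) (m : Fin d →₀ ℕ) :
    coeff (p • m) (r ^ p) = (coeff m r) ^ p := by
  have h := coeff_smul_pow (p := p) (e := 1) r m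
  rw [pow_one] at h
  exact h

theorem coeff_pow_of_not_dvd1 (r : MvPowerSeries (Fin d) k) {m : Fin d →₀ ℕ} {i : Fin d}
    (h : ¬ p ∣ m i) : coeff m (r ^ p) = 0 := by
  have h' := coeff_pow_of_not_dvd (p := p) (e := 1) (m := m) (i := i) r
  rw [pow_one] at h'
  exact h' h

/-- expansion of a power series over the `p`-th powers -/
theorem expansionF {s : ℕ} {t : Fin s → k} (ht : IsPB p t) (g : MvPowerSeries (Fin d) k) :
    ∃ c : (Fin s → Fin p) × (Fin d → Fin p) → MvPowerSeries (Fin d) k,
      ∑ z : (Fin s → Fin p) × (Fin d → Fin p),
        (c z) ^ p * monomial (ex d z.2) (∏ i, t i ^ (z.1 i : ℕ)) = g := by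
  classical
  have hq : 0 < p := (Fact.out : p.Prime).pos
  have ht' : ∀ α : k, ∃ c : (Fin s → Fin p) → k, α = ∑ a, c a ^ p * ∏ i, t i ^ (a i : ℕ) :=
    fun α => (ht α).exists
  choose C hC using ht'
  let c : (Fin s → Fin p) × (Fin d → Fin p) → MvPowerSeries (Fin d) k :=
    fun z n => C (coeff (p • n + ex d z.2) g) z.1
  have hc : ∀ z n, coeff n (c z) = C (coeff (p • n + ex d z.2) g) z.1 := fun z n => rfl
  refine ⟨c, ?_⟩
  ext n
  obtain ⟨b, e, rfl⟩ : ∃ (b : Fin d →₀ ℕ) (e : Fin d → Fin p), n = p • b + ex d e := by
    refine ⟨n.mapRange (· / p) (Nat.zero_div _),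
      fun i => (⟨n i % p, Nat.mod_lt _ hq⟩ : Fin p), ?_⟩
    ext i
    simp only [Finsupp.smul_apply, smul_eq_mul, Finsupp.mapRange_apply, Finsupp.add_apply,
      ex_apply]
    exact (Nat.div_add_mod _ _).symm
  rw [map_sum, Fintype.sum_prod_type]
  conv_rhs => rw [hC (coeff (p • b + ex d e) g)]
  refine Finset.sum_congr rfl fun a _ => ?_
  rw [Finset.sum_eq_single e]
  · show coeff (p • b + ex d e) (c (a, e) ^ p * monomial (ex d e) (∏ i, t i ^ (a i : ℕ))) = _
    rw [coeff_add_mul_monomial, coeff_smul_pow1, hc]
  · intro a' _ ha
    show coeff (p • b + ex d e) (c (a, a') ^ p * monomial (ex d a') (∏ i, t i ^ (a i : ℕ))) = 0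
    rw [coeff_mul_monomial]
    split_ifs with hle
    · by_cases hd : ∀ i, p ∣ (p • b + ex d e - ex d a') i
      · exfalso
        apply ha
        funext i
        apply Fin.ext
        obtain ⟨u, hu⟩ := hd i
        have h1 : (a' i : ℕ) ≤ p * b i + e i := hle i
        rw [Finsupp.tsub_apply, Finsupp.add_apply, Finsupp.smul_apply, smul_eq_mul, ex_apply,
          ex_apply] at hu
        have h2 : p * b i + e i = a' i + p * u := by omega
        have h3 : (p * b i + e i) % p = (a' i + p * u) % p := by rw [h2]
        rw [Nat.add_mul_mod_self_left, Nat.mod_eq_of_lt (a' i).isLt, Nat.mul_add_mod,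
          Nat.mod_eq_of_lt (e i).isLt] at h3
        exact h3.symm
      · push Not at hd
        obtain ⟨i, hi⟩ := hd
        rw [coeff_pow_of_not_dvd1 _ hi, zero_mul]
    · rfl
  · intro h
    exact absurd (Finset.mem_univ _) h

end

/-- Frobenius degree of the fraction field of a power series ring. -/
theorem frobDegF (p : ℕ) [Fact p.Prime] (k : Type) [Field k] [CharP k p] (s d : ℕ)
    (t : Fin s → k) (ht : IsPB p t)
    (L : Type) [Field L] [CharP L p] [Algebra (MvPowerSeries (Fin d) k) L]
    [IsFractionRing (MvPowerSeries (Fin d) k) L] :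
    0 < Module.finrank (frobenius L p).fieldRange L ∧
      Module.finrank (frobenius L p).fieldRange L ≤ p ^ (s + d) := by
  classical
  have hp1 : p - 1 + 1 = p := Nat.sub_add_cancel (Fact.out : p.Prime).one_le
  let v : (Fin s → Fin p) × (Fin d → Fin p) → L := fun z =>
    algebraMap (MvPowerSeries (Fin d) k) L (monomial (ex d z.2) (∏ i, t i ^ (z.1 i : ℕ)))
  have hspan : Submodule.span (frobenius L p).fieldRange (Set.range v) = ⊤ := by
    rw [eq_top_iff]
    intro z _
    obtain ⟨g, h, hh, rfl⟩ := IsFractionRing.div_surjective (A := MvPowerSeries (Fin d) k) z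
    have hh0 : algebraMap (MvPowerSeries (Fin d) k) L h ≠ 0 := by
      intro h0
      have h1 : h = 0 := IsFractionRing.injective (MvPowerSeries (Fin d) k) L (by rw [h0, map_zero])
      exact nonZeroDivisors.ne_zero hh h1
    obtain ⟨c₀, hexp⟩ := expansionF ht (g * h ^ (p - 1))
    let c : (Fin s → Fin p) × (Fin d → Fin p) → L := fun a =>
      algebraMap (MvPowerSeries (Fin d) k) L (c₀ a)
    have hexp2 : ∑ a, (c a) ^ p * v a =
        algebraMap (MvPowerSeries (Fin d) k) L g *
          (algebraMap (MvPowerSeries (Fin d) k) L h) ^ (p - 1) := by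
      rw [← map_pow, ← map_mul, ← hexp, map_sum]
      refine Finset.sum_congr rfl fun a _ => ?_
      rw [map_mul, map_pow]
    have hkey : algebraMap (MvPowerSeries (Fin d) k) L g / algebraMap (MvPowerSeries (Fin d) k) L h
        = ∑ a : (Fin s → Fin p) × (Fin d → Fin p),
          (⟨frobenius L p (c a / algebraMap (MvPowerSeries (Fin d) k) L h), ⟨_, rfl⟩⟩ :
            (frobenius L p).fieldRange) • v a := by
      have h1 : ∀ a : (Fin s → Fin p) × (Fin d → Fin p),
          (⟨frobenius L p (c a / algebraMap (MvPowerSeries (Fin d) k) L h), ⟨_, rfl⟩⟩ :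
            (frobenius L p).fieldRange) • v a =
          ((c a) ^ p * v a) / (algebraMap (MvPowerSeries (Fin d) k) L h) ^ p := by
        intro a
        rw [Subfield.smul_def]
        show (c a / algebraMap (MvPowerSeries (Fin d) k) L h) ^ p • v a = _
        rw [smul_eq_mul, div_pow]
        ring
      rw [Finset.sum_congr rfl fun a _ => h1 a, ← Finset.sum_div, hexp2, div_eq_div_iff hh0
        (pow_ne_zero _ hh0)]
      rw [mul_assoc, ← pow_succ, hp1]
    rw [hkey]
    exact Submodule.sum_mem _ fun a _ => Submodule.smul_mem _ _ (Submodule.subset_span ⟨a, rfl⟩)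
  have hfin : Module.Finite (frobenius L p).fieldRange L :=
    ⟨⟨Finset.univ.image v, by
      rw [Finset.coe_image, Finset.coe_univ, Set.image_univ]
      exact hspan⟩⟩
  refine ⟨Module.finrank_pos, ?_⟩
  have h1 := finrank_range_le_card (R := (frobenius L p).fieldRange) v
  rw [Set.finrank, hspan, finrank_top, Fintype.card_prod, Fintype.card_fun, Fintype.card_fun,
    Fintype.card_fin, Fintype.card_fin, Fintype.card_fin, ← pow_add] at h1
  exact h1

/-- Greedy choice of generators of `K` over `K^p`. -/
theorem greedy (p : ℕ) [Fact p.Prime] (S K : Type) [CommRing S] [IsDomain S] [IsLocalRing S]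
    [Field K] [CharP K p] [Algebra S K] [IsFractionRing S K] (ι : Type) [Fintype ι] (x : ι → S)
    (s₀ : S) (hs0 : s₀ ≠ 0) (hsm : s₀ ∈ IsLocalRing.maximalIdeal S)
    (hdeg : 0 < Module.finrank (frobenius K p).fieldRange K ∧
      Module.finrank (frobenius K p).fieldRange K ≤ p ^ Fintype.card ι) :
    ∃ x' : ι → S, (∀ i, x' i - x i ∈ IsLocalRing.maximalIdeal S ^ 2) ∧
      IntermediateField.adjoin (frobenius K p).fieldRange
        (Set.range fun i => algebraMap S K (x' i)) = ⊤ := by
  classical
  have hp : p.Prime := Fact.out
  have hfinK : Module.Finite (frobenius K p).fieldRange K := Module.finite_of_finrank_pos hdeg.1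
  have hmemF : ∀ (E : IntermediateField (frobenius K p).fieldRange K) (z : K), z ^ p ∈ E := by
    intro E z
    have h1 := E.algebraMap_mem ⟨frobenius K p z, ⟨z, rfl⟩⟩
    exact h1
  have key : ∀ t : Finset ι, ∃ x' : ι → S,
      (∀ i, x' i - x i ∈ IsLocalRing.maximalIdeal S ^ 2) ∧
      (IntermediateField.adjoin (frobenius K p).fieldRange
        ((fun i => algebraMap S K (x' i)) '' (t : Set ι)) = ⊤ ∨
        p ^ t.card * Module.finrank (IntermediateField.adjoin (frobenius K p).fieldRange
          ((fun i => algebraMap S K (x' i)) '' (t : Set ι))) K ≤ p ^ Fintype.card ι) := by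
    intro t
    induction t using Finset.induction_on with
    | empty =>
      refine ⟨x, fun i => ?_, Or.inr ?_⟩
      · rw [sub_self]
        exact Ideal.zero_mem _
      · rw [Finset.card_empty, pow_zero, one_mul, Finset.coe_empty, Set.image_empty,
          IntermediateField.adjoin_empty, IntermediateField.finrank_bot']
        exact hdeg.2
    | insert j t hj ih =>
      obtain ⟨x', hx', h⟩ := ih
      -- it suffices to choose the new element
      have himg : ∀ y : S, (fun i => algebraMap S K (Function.update x' j y i)) ''
          ((insert j t : Finset ι) : Set ι) =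
          insert (algebraMap S K y) ((fun i => algebraMap S K (x' i)) '' (t : Set ι)) := by
        intro y
        rw [Finset.coe_insert, Set.image_insert_eq, Function.update_self]
        congr 1
        apply Set.image_congr
        intro i hi
        have hij : i ≠ j := fun h => hj (h ▸ hi)
        show algebraMap S K (Function.update x' j y i) = algebraMap S K (x' i)
        rw [Function.update_of_ne hij]
      have hupd : ∀ y : S, y - x j ∈ IsLocalRing.maximalIdeal S ^ 2 →
          ∀ i, Function.update x' j y i - x i ∈ IsLocalRing.maximalIdeal S ^ 2 := by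
        intro y hy i
        by_cases hij : i = j
        · rw [hij, Function.update_self]
          exact hy
        · rw [Function.update_of_ne hij]
          exact hx' i
      by_cases htop : IntermediateField.adjoin (frobenius K p).fieldRange
          ((fun i => algebraMap S K (x' i)) '' (t : Set ι)) = ⊤
      · refine ⟨Function.update x' j (x j), hupd _ ?_, Or.inl ?_⟩
        · rw [sub_self]
          exact Ideal.zero_mem _
        · rw [himg, eq_top_iff, ← htop]
          exact IntermediateField.adjoin.mono _ _ _ (Set.subset_insert _ _)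
      · have hle := h.resolve_left htop
        -- choose the new element
        obtain ⟨y, hy1, hy2⟩ : ∃ y : S, y - x j ∈ IsLocalRing.maximalIdeal S ^ 2 ∧
            algebraMap S K y ∉ IntermediateField.adjoin (frobenius K p).fieldRange
              ((fun i => algebraMap S K (x' i)) '' (t : Set ι)) := by
          by_cases hxj : algebraMap S K (x j) ∈ IntermediateField.adjoin
              (frobenius K p).fieldRange ((fun i => algebraMap S K (x' i)) '' (t : Set ι))
          · obtain ⟨y, hy⟩ : ∃ y : S, algebraMap S K y ∉ IntermediateField.adjoin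
                (frobenius K p).fieldRange
                ((fun i => algebraMap S K (x' i)) '' (t : Set ι)) := by
              by_contra hcon
              push Not at hcon
              apply htop
              rw [eq_top_iff]
              intro z _
              obtain ⟨a, b, _, rfl⟩ := IsFractionRing.div_surjective (A := S) z
              exact div_mem (hcon a) (hcon b)
            refine ⟨x j + s₀ ^ p * y, ?_, ?_⟩
            · rw [add_sub_cancel_left]
              apply Ideal.mul_mem_right
              exact Ideal.pow_le_pow_right hp.two_le (Ideal.pow_mem_pow hsm p)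
            · intro hmem
              rw [map_add, map_mul, map_pow] at hmem
              have h1 := sub_mem hmem hxj
              rw [add_sub_cancel_left] at h1
              have h2 := hmemF (IntermediateField.adjoin (frobenius K p).fieldRange
                ((fun i => algebraMap S K (x' i)) '' (t : Set ι)))
                (algebraMap S K s₀)
              have h3 := div_mem h1 h2
              have h4 : (algebraMap S K s₀) ^ p ≠ 0 := by
                apply pow_ne_zero
                intro h0
                exact hs0 (IsFractionRing.injective S K (by rw [h0, map_zero]))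
              rw [mul_div_cancel_left₀ _ h4] at h3
              exact hy h3
          · refine ⟨x j, ?_, hxj⟩
            rw [sub_self]
            exact Ideal.zero_mem _
        refine ⟨Function.update x' j y, hupd _ hy1, Or.inr ?_⟩
        rw [himg, Finset.card_insert_of_notMem hj]
        have hstep := Pool.Agent.H363.FT867.stepDeg p _ K _ (algebraMap S K y) hy2 (hmemF _ _)
        have hadj : IntermediateField.adjoin (frobenius K p).fieldRange
            (insert (algebraMap S K y) ((fun i => algebraMap S K (x' i)) '' (t : Set ι))) =
            IntermediateField.restrictScalars (frobenius K p).fieldRange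
              (IntermediateField.adjoin (IntermediateField.adjoin (frobenius K p).fieldRange
              ((fun i => algebraMap S K (x' i)) '' (t : Set ι))) {algebraMap S K y}) := by
          rw [IntermediateField.adjoin_adjoin_left, Set.union_singleton]
        rw [hadj]
        have hfr : Module.finrank (IntermediateField.restrictScalars (frobenius K p).fieldRange
              (IntermediateField.adjoin (IntermediateField.adjoin (frobenius K p).fieldRange
              ((fun i => algebraMap S K (x' i)) '' (t : Set ι))) {algebraMap S K y})) K =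
            Module.finrank (IntermediateField.adjoin (IntermediateField.adjoin
              (frobenius K p).fieldRange
              ((fun i => algebraMap S K (x' i)) '' (t : Set ι))) {algebraMap S K y}) K := rfl
        rw [hfr, pow_succ, mul_assoc, hstep]
        exact hle
  obtain ⟨x', hx', h⟩ := key Finset.univ
  refine ⟨x', hx', ?_⟩
  rw [Finset.coe_univ, Set.image_univ] at h
  rcases h with h | h
  · exact h
  · rw [Finset.card_univ] at h
    rw [← IntermediateField.finrank_eq_one_iff_eq_top]
    apply le_antisymm
    · have h1 : p ^ Fintype.card ι * Module.finrank (IntermediateField.adjoin (frobenius K p).fieldRange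
          (Set.range fun i => algebraMap S K (x' i))) K ≤ p ^ Fintype.card ι * 1 := by
        rw [mul_one]
        exact h
      exact Nat.le_of_mul_le_mul_left h1 (pow_pos hp.pos _)
    · exact Module.finrank_pos


/-- **PBF.** -/
theorem pbf : S_PBF := by
  intro p _ k _ _ s d t ht hd S K _ _ _ _ _ _ _ _ _ _ τ x
  classical
  have hp : p.Prime := Fact.out
  -- the fraction field of `P`
  let P := MvPowerSeries (Fin d) k
  have : IsDomain P := Function.Injective.isDomain (algebraMap P S)
    (FaithfulSMul.algebraMap_injective P S)
  have hinj : Function.Injective ((algebraMap S K).comp (algebraMap P S)) :=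
    (IsFractionRing.injective S K).comp (FaithfulSMul.algebraMap_injective P S)
  let L := FractionRing P
  let f : L →+* K := IsFractionRing.lift hinj
  have hfP : ∀ g : P, f (algebraMap P L g) = algebraMap S K (algebraMap P S g) := fun g =>
    IsFractionRing.lift_algebraMap hinj g
  have hcL : CharP L p := (RingHom.charP_iff f f.injective p).2 inferInstance
  have hdeg : 0 < Module.finrank (frobenius K p).fieldRange K ∧
      Module.finrank (frobenius K p).fieldRange K ≤ p ^ Fintype.card (Fin s ⊕ Fin d) := by
    rw [Pool.Agent.H363.FT867.frobDegK p L K f (Pool.Agent.H363.FT867.finiteFrac P S L K f hfP),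
      Fintype.card_sum, Fintype.card_fin, Fintype.card_fin]
    exact frobDegF p k s d t ht L
  let j : Fin d := ⟨0, hd⟩
  have hs0 : algebraMap P S (MvPowerSeries.X j) ≠ 0 := by
    intro h0
    have h1 : (MvPowerSeries.X j : P) = 0 :=
      FaithfulSMul.algebraMap_injective P S (by rw [h0, map_zero])
    have h2 := congrArg (MvPowerSeries.coeff (Finsupp.single j 1)) h1
    rw [MvPowerSeries.coeff_index_single_self_X, map_zero] at h2
    exact one_ne_zero h2
  have hsm : algebraMap P S (MvPowerSeries.X j) ∈ IsLocalRing.maximalIdeal S := by
    rw [IsLocalRing.mem_maximalIdeal, mem_nonunits_iff]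
    intro hu
    have h1 : IsUnit (MvPowerSeries.X j : P) := isUnit_of_map_unit (algebraMap P S) _ hu
    have h2 := h1.map (MvPowerSeries.constantCoeff (σ := Fin d) (R := k))
    rw [MvPowerSeries.constantCoeff_X] at h2
    exact not_isUnit_zero h2
  obtain ⟨y, hy, htop⟩ := greedy p S K (Fin s ⊕ Fin d) (Sum.elim τ x) _ hs0 hsm hdeg
  refine ⟨fun i => y (Sum.inl i), fun i => y (Sum.inr i), fun i => hy (Sum.inl i),
    fun i => hy (Sum.inr i), ?_⟩
  rw [← htop]
  congr 1
  ext z
  simp only [Set.mem_union, Set.mem_range, Sum.exists]

end Pool.Agent.H695.FT867
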