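import Mathlib

/-!
# A Golod-Shafarevich type module

`K = F_2`, `X` a set of four letters, `B = K^X`.  We construct the space `W` of functions
`List X → K` on which all products of 17 operators `D b`, `b ∈ {b₀, b₁}`, vanish, and show that
for every length `n` there is a nonzero function in `W` supported on words of length `n`.
-/

set_option autoImplicit false

namespace Pool.Agent.H695.NilFree

abbrev K := ZMod 2
abbrev X := Fin 4
abbrev B := X → K
abbrev Fn := List X → K

/-- the operator `D b`: linear combination of the first-letter-removal operators -/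
def D (b : B) : Fn →ₗ[K] Fn where
  toFun φ := fun w => ∑ x, b x * φ (x :: w)
  map_add' φ ψ := by
    funext w
    simp [mul_add, Finset.sum_add_distrib]
  map_smul' c φ := by
    funext w
    simp [Finset.mul_sum, mul_left_comm]

@[simp] lemma D_apply (b : B) (φ : Fn) (w : List X) : D b φ w = ∑ x, b x * φ (x :: w) := rfl

/-- products of operators -/
def Dw : List B → (Fn →ₗ[K] Fn)
  | [] => LinearMap.id
  | b :: L => (D b).comp (Dw L)

@[simp] lemma Dw_nil (φ : Fn) : Dw [] φ = φ := rfl
@[simp] lemma Dw_cons (b : B) (L : List B) (φ : Fn) : Dw (b :: L) φ = D b (Dw L φ) := rfl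

lemma Dw_append (L L' : List B) (φ : Fn) : Dw (L ++ L') φ = Dw L (Dw L' φ) := by
  induction L with
  | nil => rfl
  | cons b L ih => simp [ih]

/-- shift by a prefix -/
def S (p : List X) : Fn →ₗ[K] Fn where
  toFun φ := fun w => φ (p ++ w)
  map_add' _ _ := rfl
  map_smul' _ _ := rfl

@[simp] lemma S_apply (p : List X) (φ : Fn) (w : List X) : S p φ w = φ (p ++ w) := rfl

@[simp] lemma S_nil (φ : Fn) : S [] φ = φ := rfl

lemma S_S (p q : List X) (φ : Fn) : S q (S p φ) = S (p ++ q) φ := by
  funext w; simp

lemma D_eq (b : B) (φ : Fn) : D b φ = ∑ x, b x • S [x] φ := by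
  funext w
  simp [Finset.sum_apply]

/-- index set of the relations -/
abbrev Idx := B × B × (Fin 17 → Bool)

/-- the words of operators which have to vanish -/
def rel (i : Idx) : List B := List.ofFn fun j : Fin 17 => if i.2.2 j then i.2.1 else i.1

lemma rel_length (i : Idx) : (rel i).length = 17 := by simp [rel]

lemma exists_rel (b₀ b₁ : B) (L : List B) (hL : L.length = 17)
    (h : ∀ b ∈ L, b = b₀ ∨ b = b₁) : ∃ i : Idx, rel i = L := by
  classical
  refine ⟨(b₀, b₁, fun j => decide (L[(j : ℕ)]'(by omega) = b₁)), ?_⟩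
  apply List.ext_getElem
  · simp [rel, hL]
  · intro n h1 h2
    simp only [rel, List.getElem_ofFn]
    by_cases hn : L[n] = b₁
    · simp [hn]
    · have := h L[n] (List.getElem_mem h2)
      simp [hn] at this ⊢
      exact this.symm

/-- functions on which all relations hold (at every place) -/
def W : Submodule K Fn where
  carrier := {φ | ∀ (p : List X) (i : Idx), Dw (rel i) (S p φ) = 0}
  add_mem' := by
    intro φ ψ hφ hψ p i
    simp [map_add, hφ p i, hψ p i]
  zero_mem' := by
    intro p i
    simp
  smul_mem' := by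
    intro c φ hφ p i
    simp [map_smul, hφ p i]

lemma mem_W (φ : Fn) : φ ∈ W ↔ ∀ (p : List X) (i : Idx), Dw (rel i) (S p φ) = 0 := Iff.rfl

lemma S_mem_W {φ : Fn} (h : φ ∈ W) (p : List X) : S p φ ∈ W := by
  intro q i
  rw [S_S]
  exact h _ i

lemma D_mem_W {φ : Fn} (h : φ ∈ W) (b : B) : D b φ ∈ W := by
  rw [D_eq]
  exact Submodule.sum_mem _ fun x _ => Submodule.smul_mem _ _ (S_mem_W h _)

/-- the functions supported on words of length `n` -/
def supp (n : ℕ) : Submodule K Fn where
  carrier := {φ | ∀ w : List X, w.length ≠ n → φ w = 0}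
  add_mem' := by
    intro φ ψ hφ hψ w hw
    simp [hφ w hw, hψ w hw]
  zero_mem' := by
    intro w hw
    rfl
  smul_mem' := by
    intro c φ hφ w hw
    simp [hφ w hw]

lemma mem_supp (n : ℕ) (φ : Fn) : φ ∈ supp n ↔ ∀ w : List X, w.length ≠ n → φ w = 0 := Iff.rfl

lemma D_mem_supp {n : ℕ} {φ : Fn} (h : φ ∈ supp (n + 1)) (b : B) : D b φ ∈ supp n := by
  intro w hw
  simp only [D_apply]
  apply Finset.sum_eq_zero
  intro x _
  rw [h (x :: w) (by simpa using hw), mul_zero]

lemma D_supp_zero {φ : Fn} (h : φ ∈ supp 0) (b : B) : D b φ = 0 := by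
  funext w
  simp only [D_apply, Pi.zero_apply]
  apply Finset.sum_eq_zero
  intro x _
  rw [h (x :: w) (by simp), mul_zero]

/-- graded pieces -/
def V (n : ℕ) : Submodule K Fn := W ⊓ supp n

lemma D_mem_V {n : ℕ} {φ : Fn} (h : φ ∈ V (n + 1)) (b : B) : D b φ ∈ V n :=
  ⟨D_mem_W h.1 b, D_mem_supp h.2 b⟩

lemma Dw_mem_V (L : List B) : ∀ {n : ℕ} {φ : Fn}, φ ∈ V (n + L.length) → Dw L φ ∈ V n := by
  induction L with
  | nil => intro n φ h; simpa using h
  | cons b L ih =>
    intro n φ h
    rw [Dw_cons]
    apply D_mem_V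
    apply ih
    have : n + 1 + L.length = n + (b :: L).length := by simp; omega
    rw [this]
    exact h

lemma Dw_supp_zero (L : List B) : ∀ {n : ℕ} {φ : Fn}, φ ∈ supp n → n < L.length → Dw L φ = 0 := by
  suffices H : ∀ (L : List B) (n : ℕ) (φ : Fn), φ ∈ supp n →
      (n < L.length → Dw L φ = 0) ∧ (L.length ≤ n → Dw L φ ∈ supp (n - L.length)) by
    intro n φ h hn
    exact (H L n φ h).1 hn
  intro L
  induction L with
  | nil => intro n φ h; exact ⟨fun h => absurd h (by simp), fun _ => by simpa using h⟩
  | cons b L ih =>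
    intro n φ h
    obtain ⟨h1, h2⟩ := ih n φ h
    constructor
    · intro hn
      rw [Dw_cons]
      rcases Nat.lt_or_ge n L.length with h3 | h3
      · rw [h1 h3, map_zero]
      · have h4 := h2 h3
        have : n - L.length = 0 := by simp at hn; omega
        rw [this] at h4
        exact D_supp_zero h4 b
    · intro hn
      rw [Dw_cons]
      simp only [List.length_cons] at hn
      have h4 := h2 (by omega)
      apply D_mem_supp
      have : n - (b :: L).length + 1 = n - L.length := by simp; omega
      rw [this]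
      exact h4

/-- glue four functions to one -/
def glue : (X → Fn) →ₗ[K] Fn where
  toFun ψ := fun w => match w with
    | [] => 0
    | x :: w => ψ x w
  map_add' ψ ψ' := by
    funext w
    cases w <;> simp
  map_smul' c ψ := by
    funext w
    cases w <;> simp

@[simp] lemma glue_nil (ψ : X → Fn) : glue ψ [] = 0 := rfl
@[simp] lemma glue_cons (ψ : X → Fn) (x : X) (w : List X) : glue ψ (x :: w) = ψ x w := rfl

lemma glue_injective : Function.Injective glue := by
  intro ψ ψ' h
  funext x w
  have := congrFun h (x :: w)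
  simpa using this

lemma D_glue (b : B) (ψ : X → Fn) : D b (glue ψ) = ∑ x, b x • ψ x := by
  funext w
  simp [Finset.sum_apply]

lemma S_glue (x : X) (p : List X) (ψ : X → Fn) : S (x :: p) (glue ψ) = S p (ψ x) := by
  funext w
  simp

lemma glue_mem_supp {n : ℕ} {ψ : X → Fn} (h : ∀ x, ψ x ∈ supp n) : glue ψ ∈ supp (n + 1) := by
  intro w hw
  cases w with
  | nil => rfl
  | cons x w => exact h x w (by simpa using hw)

lemma glue_mem_W {ψ : X → Fn} (h : ∀ x, ψ x ∈ W) (h0 : ∀ i, Dw (rel i) (glue ψ) = 0) :
    glue ψ ∈ W := by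
  intro p i
  cases p with
  | nil => exact h0 i
  | cons x p => rw [S_glue]; exact h x p i

/-- applying a nonempty word of operators to a glued function -/
lemma Dw_glue_mem (L : List B) (n : ℕ) (ψ : X → Fn) (h : ∀ x, ψ x ∈ V (n + L.length))
    (b : B) : Dw (L ++ [b]) (glue ψ) ∈ V n := by
  rw [Dw_append]
  apply Dw_mem_V
  rw [Dw_cons, Dw_nil, D_glue]
  exact Submodule.sum_mem _ fun x _ => Submodule.smul_mem _ _ (h x)

lemma rel_split (i : Idx) : ∃ (L : List B) (b : B), L.length = 16 ∧ rel i = L ++ [b] := by
  have h : rel i ≠ [] := by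
    intro h
    have := rel_length i
    rw [h] at this
    simp at this
  refine ⟨(rel i).dropLast, (rel i).getLast h, ?_, (List.dropLast_append_getLast h).symm⟩
  rw [List.length_dropLast, rel_length]

/-- the map whose kernel is the next graded piece -/
def Psi (n : ℕ) : (X → V (n + 16)) →ₗ[K] (Idx → V n) where
  toFun ψ := fun i => ⟨Dw (rel i) (glue fun x => (ψ x : Fn)), by
    obtain ⟨L, b, hL, h⟩ := rel_split i
    rw [h]
    apply Dw_glue_mem
    intro x
    rw [hL]
    exact (ψ x).2⟩
  map_add' ψ ψ' := by
    funext i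
    apply Subtype.ext
    have : (fun x => (((ψ + ψ') x : V (n + 16)) : Fn)) = (fun x => (ψ x : Fn)) + fun x => (ψ' x : Fn) := rfl
    simp only [this, map_add]
    rfl
  map_smul' c ψ := by
    funext i
    apply Subtype.ext
    have : (fun x => (((c • ψ) x : V (n + 16)) : Fn)) = c • (fun x => (ψ x : Fn)) := rfl
    simp only [this, map_smul]
    rfl

lemma Psi_apply (n : ℕ) (ψ : X → V (n + 16)) (i : Idx) :
    ((Psi n ψ i : V n) : Fn) = Dw (rel i) (glue fun x => (ψ x : Fn)) := rfl

instance (n : ℕ) : FiniteDimensional K (V n) := by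
  let f : V n →ₗ[K] (List.Vector X n → K) :=
    { toFun := fun φ w => (φ : Fn) w.1
      map_add' := fun _ _ => rfl
      map_smul' := fun _ _ => rfl }
  apply FiniteDimensional.of_injective f
  intro φ ψ h
  apply Subtype.ext
  funext w
  by_cases hw : w.length = n
  · exact congrFun h ⟨w, hw⟩
  · rw [φ.2.2 w hw, ψ.2.2 w hw]

/-- dimensions of the graded pieces -/
noncomputable def a (n : ℕ) : ℕ := Module.finrank K (V n)

lemma a_zero : 1 ≤ a 0 := by
  have : Nontrivial (V 0) := by
    refine ⟨⟨0, ⟨fun w => if w = [] then 1 else 0, ?_, ?_⟩, ?_⟩⟩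
    · intro p i
      have h : S p (fun w : List X => if w = [] then (1 : K) else 0) ∈ supp 0 := by
        intro w hw
        have : w ≠ [] := by
          intro h; rw [h] at hw; simp at hw
        simp [this]
      exact Dw_supp_zero (rel i) h (by rw [rel_length]; norm_num)
    · intro w hw
      have : w ≠ [] := by
        intro h; rw [h] at hw; simp at hw
      simp [this]
    · intro h
      have := congrArg (fun φ : V 0 => (φ : Fn) []) h
      simp at this
  exact Module.finrank_pos

lemma a_small (n : ℕ) (hn : n + 1 < 17) : 4 * a n ≤ a (n + 1) := by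
  let f : (X → V n) →ₗ[K] V (n + 1) :=
    { toFun := fun ψ => ⟨glue fun x => (ψ x : Fn), by
        have hs : (glue fun x => (ψ x : Fn)) ∈ supp (n + 1) := glue_mem_supp fun x => (ψ x).2.2
        refine ⟨glue_mem_W (fun x => (ψ x).2.1) fun i => ?_, hs⟩
        exact Dw_supp_zero _ hs (by rw [rel_length]; exact hn)⟩
      map_add' := by
        intro ψ ψ'
        apply Subtype.ext
        have : (fun x => (((ψ + ψ') x : V n) : Fn)) = (fun x => (ψ x : Fn)) + fun x => (ψ' x : Fn) := rfl
        simp only [this, map_add]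
        rfl
      map_smul' := by
        intro c ψ
        apply Subtype.ext
        have : (fun x => (((c • ψ) x : V n) : Fn)) = c • (fun x => (ψ x : Fn)) := rfl
        simp only [this, map_smul]
        rfl }
  have hf : Function.Injective f := by
    intro ψ ψ' h
    have h1 := congrArg (fun φ : V (n + 1) => (φ : Fn)) h
    have h2 := glue_injective h1
    funext x
    apply Subtype.ext
    exact congrFun h2 x
  have := LinearMap.finrank_le_finrank_of_injective hf
  rw [Module.finrank_pi_fintype] at this
  simpa [a] using this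

lemma card_Idx : Fintype.card Idx ≤ 3 ^ 16 := by
  simp only [Fintype.card_prod, Fintype.card_fun, Fintype.card_fin, ZMod.card, Fintype.card_bool]
  norm_num

lemma a_large (n : ℕ) : 4 * a (n + 16) ≤ a (n + 17) + 3 ^ 16 * a n := by
  have h1 := LinearMap.finrank_range_add_finrank_ker (Psi n)
  have h2 : Module.finrank K (LinearMap.range (Psi n)) ≤ 3 ^ 16 * a n := by
    have h3 := Submodule.finrank_le (LinearMap.range (Psi n))
    rw [Module.finrank_pi_fintype] at h3
    simp only [Finset.sum_const, Finset.card_univ, smul_eq_mul] at h3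
    calc _ ≤ _ := h3
      _ ≤ 3 ^ 16 * a n := Nat.mul_le_mul_right _ card_Idx
  have h4 : Module.finrank K (LinearMap.ker (Psi n)) ≤ a (n + 17) := by
    let f : LinearMap.ker (Psi n) →ₗ[K] V (n + 17) :=
      { toFun := fun ψ => ⟨glue fun x => ((ψ : X → V (n + 16)) x : Fn), by
          have hs : (glue fun x => ((ψ : X → V (n + 16)) x : Fn)) ∈ supp (n + 17) :=
            glue_mem_supp fun x => ((ψ : X → V (n + 16)) x).2.2
          refine ⟨glue_mem_W (fun x => ((ψ : X → V (n + 16)) x).2.1) fun i => ?_, hs⟩
          have h6 : Psi n (ψ : X → V (n + 16)) i = 0 := by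
            rw [LinearMap.mem_ker.1 ψ.2]; rfl
          rw [← Psi_apply, h6]
          rfl⟩
        map_add' := by
          intro ψ ψ'
          apply Subtype.ext
          have : (fun x => ((((ψ + ψ' : LinearMap.ker (Psi n)) : X → V (n + 16)) x : V (n + 16)) : Fn))
            = (fun x => ((ψ : X → V (n + 16)) x : Fn)) + fun x => ((ψ' : X → V (n + 16)) x : Fn) := rfl
          simp only [this, map_add]
          rfl
        map_smul' := by
          intro c ψ
          apply Subtype.ext
          have : (fun x => ((((c • ψ : LinearMap.ker (Psi n)) : X → V (n + 16)) x : V (n + 16)) : Fn))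
            = c • (fun x => ((ψ : X → V (n + 16)) x : Fn)) := rfl
          simp only [this, map_smul]
          rfl }
    have hf : Function.Injective f := by
      intro ψ ψ' h
      have h1 := congrArg (fun φ : V (n + 17) => (φ : Fn)) h
      have h2 := glue_injective h1
      apply Subtype.ext
      funext x
      apply Subtype.ext
      exact congrFun h2 x
    exact LinearMap.finrank_le_finrank_of_injective hf
  have h5 : Module.finrank K (X → V (n + 16)) = 4 * a (n + 16) := by
    rw [Module.finrank_pi_fintype]
    simp [a]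
  omega

lemma a_growth : ∀ n, 3 * a n ≤ a (n + 1) := by
  intro n
  induction n using Nat.strong_induction_on with
  | _ n ih =>
    rcases Nat.lt_or_ge (n + 1) 17 with h | h
    · have := a_small n h
      omega
    · obtain ⟨m, rfl⟩ : ∃ m, n = m + 16 := ⟨n - 16, by omega⟩
      have h1 := a_large m
      have h2 : ∀ k ≤ 16, 3 ^ k * a m ≤ a (m + k) := by
        intro k
        induction k with
        | zero => intro _; simp
        | succ k ihk =>
          intro hk
          have h3 := ihk (by omega)
          have h4 := ih (m + k) (by omega)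
          calc 3 ^ (k + 1) * a m = 3 * (3 ^ k * a m) := by ring
            _ ≤ 3 * a (m + k) := Nat.mul_le_mul_left _ h3
            _ ≤ a (m + (k + 1)) := h4
      have h5 := h2 16 le_rfl
      have h6 : m + 16 + 1 = m + 17 := rfl
      rw [h6]
      omega

lemma a_pos (n : ℕ) : 1 ≤ a n := by
  induction n with
  | zero => exact a_zero
  | succ n ih =>
    have := a_growth n
    omega

lemma exists_ne_zero (n : ℕ) : ∃ φ ∈ V n, ∃ w : List X, w.length = n ∧ φ w ≠ 0 := by
  have h : 0 < Module.finrank K (V n) := a_pos n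
  obtain ⟨φ, hφ⟩ := Module.finrank_pos_iff_exists_ne_zero.1 h
  have h1 : (φ : Fn) ≠ 0 := fun h => hφ (Subtype.ext h)
  obtain ⟨w, hw⟩ := Function.ne_iff.1 h1
  refine ⟨φ, φ.2, w, ?_, hw⟩
  by_contra h2
  exact hw (φ.2.2 w h2)

end Pool.Agent.H695.NilFree
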