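import Mathlib
import Pool.Agent.H695.NilFree

/-!
# An anticommutative algebra all of whose 2-generated subalgebras are nilpotent of class < 19,
with a 5-generated subalgebra which is not nilpotent.
-/

set_option autoImplicit false

namespace Pool.Agent.H695.NilFree

lemma D_add (b b' : B) (φ : Fn) : D (b + b') φ = D b φ + D b' φ := by
  funext w
  simp [add_mul, Finset.sum_add_distrib]

lemma D_smul (c : K) (b : B) (φ : Fn) : D (c • b) φ = c • D b φ := by
  funext w
  simp [Finset.mul_sum, mul_assoc]

/-- the module: sequences of functions, the `n`-th one in `V n` -/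
def M : Submodule K (ℕ → Fn) where
  carrier := {Φ | ∀ n, Φ n ∈ V n}
  add_mem' h h' := fun n => (V n).add_mem (h n) (h' n)
  zero_mem' := fun n => (V n).zero_mem
  smul_mem' c _ h := fun n => (V n).smul_mem c (h n)

/-- the operators on the module -/
def DM : B →ₗ[K] (M →ₗ[K] M) where
  toFun b :=
    { toFun := fun Φ => ⟨fun n => D b ((Φ : ℕ → Fn) (n + 1)), fun n => D_mem_V (Φ.2 (n + 1)) b⟩
      map_add' := by
        intro Φ Ψ
        apply Subtype.ext
        funext n
        exact map_add (D b) _ _
      map_smul' := by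
        intro c Φ
        apply Subtype.ext
        funext n
        exact map_smul (D b) _ _ }
  map_add' := by
    intro b b'
    apply LinearMap.ext
    intro Φ
    apply Subtype.ext
    funext n
    exact D_add b b' _
  map_smul' := by
    intro c b
    apply LinearMap.ext
    intro Φ
    apply Subtype.ext
    funext n
    exact D_smul c b _

lemma DM_apply (b : B) (Φ : M) (n : ℕ) :
    (DM b Φ : ℕ → Fn) n = D b ((Φ : ℕ → Fn) (n + 1)) := rfl

/-- the algebra `B ⊕ M` -/
def A : Type := B × M

instance : AddCommGroup A := inferInstanceAs (AddCommGroup (B × M))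
instance : Module K A := inferInstanceAs (Module K (B × M))

/-- the product of the algebra -/
def mulA (a b : A) : A := ((0 : B), DM a.1 b.2 - DM b.1 a.2)

lemma A_ext {a b : A} (h1 : a.1 = b.1) (h2 : a.2 = b.2) : a = b := Prod.ext h1 h2

instance : NonUnitalNonAssocRing A :=
  { (inferInstance : AddCommGroup A) with
    mul := mulA
    left_distrib := by
      intro a b c
      apply A_ext
      · show (0 : B) = 0 + 0
        simp
      · show DM a.1 (b.2 + c.2) - DM (b.1 + c.1) a.2
          = (DM a.1 b.2 - DM b.1 a.2) + (DM a.1 c.2 - DM c.1 a.2)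
        rw [map_add, map_add, LinearMap.add_apply]
        abel
    right_distrib := by
      intro a b c
      apply A_ext
      · show (0 : B) = 0 + 0
        simp
      · show DM (a.1 + b.1) c.2 - DM c.1 (a.2 + b.2)
          = (DM a.1 c.2 - DM c.1 a.2) + (DM b.1 c.2 - DM c.1 b.2)
        rw [map_add, map_add, LinearMap.add_apply]
        abel
    zero_mul := by
      intro a
      apply A_ext
      · rfl
      · show DM (0 : B) a.2 - DM a.1 (0 : M) = 0
        simp
    mul_zero := by
      intro a
      apply A_ext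
      · rfl
      · show DM a.1 (0 : M) - DM (0 : B) a.2 = 0
        simp }

lemma mul_fst (a b : A) : (a * b).1 = 0 := rfl
lemma mul_snd (a b : A) : (a * b).2 = DM a.1 b.2 - DM b.1 a.2 := rfl

instance : IsScalarTower K A A where
  smul_assoc := by
    intro c a b
    apply A_ext
    · show (0 : B) = c • (0 : B)
      simp
    · show DM (c • a.1) b.2 - DM b.1 (c • a.2) = c • (DM a.1 b.2 - DM b.1 a.2)
      rw [map_smul, map_smul, LinearMap.smul_apply, smul_sub]

instance : SMulCommClass K A A where
  smul_comm := by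
    intro c a b
    apply A_ext
    · show c • (0 : B) = (0 : B)
      simp
    · show c • (DM a.1 b.2 - DM b.1 a.2) = DM a.1 (c • b.2) - DM (c • b.1) a.2
      rw [map_smul, map_smul, LinearMap.smul_apply, smul_sub]

theorem anticomm (a : A) : a * a = 0 := by
  apply A_ext
  · rfl
  · rw [mul_snd, sub_self]
    rfl

/-- the identities: all products of length at least 19 in two variables vanish -/
def Ident : Set (MonoidAlgebra K (FreeMagma ℕ)) :=
  {f | ∃ w : FreeMagma (Fin 2), 19 ≤ w.length ∧
    f = MonoidAlgebra.single (FreeMagma.map (fun i : Fin 2 => (i : ℕ)) w) 1}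

lemma lift_map {T : Type} [Mul T] (v : ℕ → T) (w : FreeMagma (Fin 2)) :
    FreeMagma.lift v (FreeMagma.map (fun i : Fin 2 => (i : ℕ)) w)
      = FreeMagma.lift (fun i : Fin 2 => v i) w := by
  induction w using FreeMagma.recOnMul with
  | ih1 i => simp
  | ih2 a b ha hb => rw [map_mul, map_mul, map_mul, ha, hb]

lemma lift_single {A' : Type} [NonUnitalNonAssocRing A'] [Module K A'] [IsScalarTower K A' A']
    [SMulCommClass K A' A'] (v : ℕ → A') (w : FreeMagma ℕ) :
    MonoidAlgebra.liftMagma K (FreeMagma.lift v) (MonoidAlgebra.single w 1)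
      = FreeMagma.lift v w := by
  rw [MonoidAlgebra.liftMagma_apply_apply]
  simp

theorem two_generated : ∃ c : ℕ, ∀ (A : Type) [NonUnitalNonAssocRing A] [Module K A]
    [IsScalarTower K A A] [SMulCommClass K A A],
    (∀ a : A, a * a = 0) →
    (∀ f ∈ Ident, ∀ v : ℕ → A, MonoidAlgebra.liftMagma K (FreeMagma.lift v) f = 0) →
    ∀ (x : Fin 2 → A) (w : FreeMagma (Fin 2)), c ≤ w.length → FreeMagma.lift x w = 0 := by
  refine ⟨19, ?_⟩
  intro A' _ _ _ _ _ hS x w hw
  have h := hS _ ⟨w, hw, rfl⟩ (fun i => if h : i < 2 then x ⟨i, h⟩ else 0)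
  rw [lift_single, lift_map] at h
  have h2 : (fun i : Fin 2 => (if h : (i : ℕ) < 2 then x ⟨i, h⟩ else 0)) = x := by
    funext i
    exact dif_pos i.2
  rw [h2] at h
  exact h

/-- products of operators on the module -/
def DMw : List B → (M →ₗ[K] M)
  | [] => LinearMap.id
  | b :: L => (DM b).comp (DMw L)

lemma DMw_cons (b : B) (L : List B) (m : M) : DMw (b :: L) m = DM b (DMw L m) := rfl

lemma DMw_apply (L : List B) : ∀ (m : M) (n : ℕ),
    (DMw L m : ℕ → Fn) n = Dw L ((m : ℕ → Fn) (n + L.length)) := by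
  induction L with
  | nil => intro m n; rfl
  | cons b L ih =>
    intro m n
    rw [DMw_cons, DM_apply, ih, Dw_cons]
    have h : n + 1 + L.length = n + (b :: L).length := by simp; omega
    rw [h]

lemma Dw_eq_zero {φ : Fn} (hφ : φ ∈ W) (L : List B) (hL : 17 ≤ L.length) (b₀ b₁ : B)
    (h : ∀ b ∈ L, b = b₀ ∨ b = b₁) : Dw L φ = 0 := by
  obtain ⟨i, hi⟩ := exists_rel b₀ b₁ (L.take 17) (by simp; omega)
    fun b hb => h b (List.mem_of_mem_take hb)
  have h1 : L = rel i ++ L.drop 17 := by rw [hi, List.take_append_drop]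
  rw [h1, Dw_append]
  have h2 : ∀ (L' : List B) (φ : Fn), φ ∈ W → Dw L' φ ∈ W := by
    intro L'
    induction L' with
    | nil => intro φ hφ; exact hφ
    | cons b L' ih => intro φ hφ; exact D_mem_W (ih φ hφ) b
  have h3 := h2 (L.drop 17) φ hφ [] i
  rwa [S_nil] at h3

lemma DMw_eq_zero (m : M) (L : List B) (hL : 17 ≤ L.length) (b₀ b₁ : B)
    (h : ∀ b ∈ L, b = b₀ ∨ b = b₁) : DMw L m = 0 := by
  apply Subtype.ext
  funext n
  rw [DMw_apply]
  exact Dw_eq_zero (m.2 _).1 L hL b₀ b₁ h

lemma length_mul' {α : Type} (u v : FreeMagma α) : (u * v).length = u.length + v.length := rfl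

lemma length_pos' {α : Type} (w : FreeMagma α) : 1 ≤ w.length := by
  induction w using FreeMagma.recOnMul with
  | ih1 i => simp
  | ih2 a b ha hb => simp only [length_mul']; omega

/-- values of words in two elements -/
lemma value (y : Fin 2 → A) (w : FreeMagma (Fin 2)) :
    (∃ i, w = FreeMagma.of i) ∨
    (2 ≤ w.length ∧ (FreeMagma.lift y w).1 = 0 ∧ ∃ L : List B, L.length + 2 = w.length ∧
      (∀ b ∈ L, b = (y 0).1 ∨ b = (y 1).1) ∧ ∃ m : M, (FreeMagma.lift y w).2 = DMw L m) := by
  induction w using FreeMagma.recOnMul with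
  | ih1 i => exact Or.inl ⟨i, rfl⟩
  | ih2 u v hu hv =>
    right
    have hy : ∀ i : Fin 2, (y i).1 = (y 0).1 ∨ (y i).1 = (y 1).1 := by
      intro i
      fin_cases i
      · exact Or.inl rfl
      · exact Or.inr rfl
    have hlen := length_mul' u v
    have hu1 := length_pos' u
    have hv1 := length_pos' v
    refine ⟨by omega, by rw [map_mul]; rfl, ?_⟩
    rcases hu with ⟨i, rfl⟩ | ⟨hu2, hu0, Lu, hLu, hLu', mu, hmu⟩
    · rcases hv with ⟨j, rfl⟩ | ⟨hv2, hv0, Lv, hLv, hLv', mv, hmv⟩
      · refine ⟨[], ?_, by simp, ?_⟩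
        · simp
        · exact ⟨_, rfl⟩
      · refine ⟨(y i).1 :: Lv, ?_, ?_, mv, ?_⟩
        · rw [hlen]; simp; omega
        · intro b hb
          rcases List.mem_cons.1 hb with rfl | hb
          · exact hy i
          · exact hLv' b hb
        · rw [map_mul, mul_snd, hv0, hmv, FreeMagma.lift_of, DMw_cons]
          simp
    · rcases hv with ⟨j, rfl⟩ | ⟨hv2, hv0, Lv, hLv, hLv', mv, hmv⟩
      · refine ⟨(y j).1 :: Lu, ?_, ?_, -mu, ?_⟩
        · rw [hlen]; simp; omega
        · intro b hb
          rcases List.mem_cons.1 hb with rfl | hb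
          · exact hy j
          · exact hLu' b hb
        · rw [map_mul, mul_snd, hu0, hmu, FreeMagma.lift_of, DMw_cons]
          simp
      · refine ⟨List.replicate (u.length + v.length - 2) (y 0).1, ?_, ?_, 0, ?_⟩
        · rw [hlen]; simp; omega
        · intro b hb
          left
          exact List.eq_of_mem_replicate hb
        · rw [map_mul, mul_snd, hu0, hv0]
          simp

theorem ident_holds : ∀ f ∈ Ident, ∀ v : ℕ → A,
    MonoidAlgebra.liftMagma K (FreeMagma.lift v) f = 0 := by
  rintro f ⟨w, hw, rfl⟩ v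
  rw [lift_single, lift_map]
  rcases value (fun i : Fin 2 => v i) w with ⟨i, rfl⟩ | ⟨_, h0, L, hL, hL', m, hm⟩
  · simp at hw
  · apply A_ext
    · exact h0
    · rw [hm]
      exact DMw_eq_zero m L (by omega) _ _ hL'

/-- nonzero functions in the graded pieces -/
noncomputable def phi (n : ℕ) : Fn := (exists_ne_zero n).choose

lemma phi_mem (n : ℕ) : phi n ∈ V n := (exists_ne_zero n).choose_spec.1

lemma phi_spec (n : ℕ) : ∃ w : List X, w.length = n ∧ phi n w ≠ 0 :=
  (exists_ne_zero n).choose_spec.2

noncomputable def Phi : M := ⟨phi, phi_mem⟩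

/-- unit vectors of `B` -/
def e (x : X) : B := Pi.single x 1

/-- the five generators -/
noncomputable def gens : Fin 5 → A := fun i =>
  if h : (i : ℕ) < 4 then ((e ⟨i, h⟩, 0) : B × M) else ((0, Phi) : B × M)

/-- long words -/
def wd : List X → FreeMagma (Fin 5)
  | [] => FreeMagma.of (Fin.last 4)
  | x :: l => FreeMagma.of (Fin.castSucc x) * wd l

lemma wd_length (l : List X) : (wd l).length = l.length + 1 := by
  induction l with
  | nil => rfl
  | cons x l ih =>
    rw [wd, length_mul', ih]
    simp
    omega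

lemma lift_wd (l : List X) : FreeMagma.lift gens (wd l) = ((0, DMw (l.map e) Phi) : B × M) := by
  induction l with
  | nil =>
    rw [wd, FreeMagma.lift_of]
    simp [gens, DMw]
  | cons x l ih =>
    rw [wd, map_mul, ih, FreeMagma.lift_of]
    apply A_ext
    · rfl
    · rw [mul_snd]
      have h : gens (Fin.castSucc x) = ((e x, 0) : B × M) := by
        simp [gens]
      rw [h]
      simp [DMw_cons]

lemma Dw_e (l : List X) : ∀ (φ : Fn) (w : List X), Dw (l.map e) φ w = φ (l.reverse ++ w) := by
  induction l with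
  | nil => intro φ w; rfl
  | cons x l ih =>
    intro φ w
    rw [List.map_cons, Dw_cons, D_apply]
    rw [Finset.sum_eq_single x]
    · rw [ih]
      simp [e]
    · intro y _ hy
      simp [e, hy]
    · intro h
      exact absurd (Finset.mem_univ x) h

theorem not_nilpotent : ¬ ∃ c : ℕ, ∀ w : FreeMagma (Fin 5), c ≤ w.length →
    FreeMagma.lift gens w = 0 := by
  rintro ⟨c, hc⟩
  obtain ⟨w, hw, hne⟩ := phi_spec c
  have h1 := hc (wd w.reverse) (by rw [wd_length, List.length_reverse]; omega)
  rw [lift_wd] at h1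
  have h2 : DMw (w.reverse.map e) Phi = 0 := congrArg Prod.snd h1
  have h3 : (DMw (w.reverse.map e) Phi : ℕ → Fn) 0 [] = 0 := by rw [h2]; rfl
  rw [DMw_apply, Dw_e] at h3
  apply hne
  have h4 : 0 + (w.reverse.map e).length = c := by simp [hw]
  rw [h4] at h3
  simpa [Phi] using h3

end Pool.Agent.H695.NilFree
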