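import Pool.Agent.H724.ST.Stm

set_option autoImplicit false

namespace Pool.Agent.H695.STP4b

open Pool.Agent.H724.ST

/-- the number of a letter -/
private def num {k : ℕ} (a b c d e : Fin k) : ℕ :=
  if e = a then 0 else if e = b then 1 else if e = c then 2 else if e = d then 3 else 4

private theorem getD_map_range (f : ℕ → List ℕ) (n q : ℕ) (hq : q < n) :
    ((List.range n).map f).getD q [] = f q := by
  rw [List.getD_eq_getElem _ _ (by simpa using hq)]
  simp

private theorem getD_HL {k : ℕ} (a b c d e : Fin k) (f : ℕ → ℕ) :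
    ((HL a b c d).map f).getD e 0 = f (num a b c d e) := by
  have hlen : (e : ℕ) < ((HL a b c d).map f).length := by
    simp [HL]
  rw [List.getD_eq_getElem _ _ hlen]
  simp [HL, num]

private theorem next_eq (C : Chk) {k : ℕ} (a b c d e : Fin k) (x : ℕ)
    (hx : x < 2 * (BB C * BB C)) :
    next (codeC (HL a b c d) C) x e = ent C x (num a b c d e) := by
  unfold next codeC
  rw [getD_map_range _ _ _ hx, getD_HL]

private theorem BB_pos (C : Chk) : 0 < BB C := by
  unfold BB
  positivity

private theorem sc_bd (h1 : S_P40) (C : Chk) (u : List Bool) : Bd (C.E + 1) (sc C u) := by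
  induction u using List.reverseRecOn with
  | nil =>
    show Bd (C.E + 1) (0, 0, 0, 0)
    refine ⟨?_, ?_, ?_, ?_⟩ <;> simp
  | append_singleton u b ih =>
    have : sc C (u ++ [b]) = scs C (sc C u) b := by
      unfold sc
      rw [List.foldl_append]
      rfl
    rw [this]
    exact h1.2.2 C _ _ ih

private theorem sc_app (C : Chk) (u : List Bool) (b : Bool) :
    sc C (u ++ [b]) = scs C (sc C u) b := by
  unfold sc
  rw [List.foldl_append]
  rfl

private theorem st_lt (h1 : S_P40) (C : Chk) (u : List Bool) :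
    enc (C.E + 1) (sc C u) < BB C :=
  (h1.1 (C.E + 1) (sc C u) (sc_bd h1 C u)).1

private theorem st_dec (h1 : S_P40) (C : Chk) (u : List Bool) :
    dec (C.E + 1) (enc (C.E + 1) (sc C u)) = sc C u :=
  (h1.1 (C.E + 1) (sc C u) (sc_bd h1 C u)).2

/-- the state after reading a good word -/
private def sta (C : Chk) (u v : List Bool) : ℕ :=
  2 * (enc (C.E + 1) (sc C u) + BB C * enc (C.E + 1) (sc C v))

private theorem pair_lt (B s t : ℕ) (hs : s < B) (ht : t < B) : s + B * t < B * B := by
  have : B * (t + 1) ≤ B * B := Nat.mul_le_mul_left _ ht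
  rw [mul_add, mul_one] at this
  omega

private theorem sta_lt (h1 : S_P40) (C : Chk) (u v : List Bool) :
    sta C u v < 2 * (BB C * BB C) := by
  unfold sta
  have := pair_lt (BB C) _ _ (st_lt h1 C u) (st_lt h1 C v)
  omega

private theorem sta_mod (C : Chk) (u v : List Bool) : sta C u v % 2 = 0 := by
  unfold sta; omega

private theorem sta_half (C : Chk) (u v : List Bool) :
    sta C u v / 2 = enc (C.E + 1) (sc C u) + BB C * enc (C.E + 1) (sc C v) := by
  unfold sta; omega

private theorem sta_l (h1 : S_P40) (C : Chk) (u v : List Bool) :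
    sta C u v / 2 % BB C = enc (C.E + 1) (sc C u) := by
  rw [sta_half, Nat.add_mul_mod_self_left, Nat.mod_eq_of_lt (st_lt h1 C u)]

private theorem sta_r (h1 : S_P40) (C : Chk) (u v : List Bool) :
    sta C u v / 2 / BB C = enc (C.E + 1) (sc C v) := by
  rw [sta_half, Nat.add_mul_div_left _ _ (BB_pos C), Nat.div_eq_of_lt (st_lt h1 C u), zero_add]

private theorem ent_sta (h1 : S_P40) (C : Chk) (u v : List Bool) :
    ent C (sta C u v) 0 = sta C (u ++ [false]) v ∧
    ent C (sta C u v) 1 = sta C u (v ++ [false]) ∧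
    ent C (sta C u v) 2 = sta C (u ++ [true]) v ∧
    ent C (sta C u v) 3 = sta C u (v ++ [true]) ∧
    ent C (sta C u v) 4 = 1 := by
  have e0 : ¬ (sta C u v % 2 = 1) := by rw [sta_mod]; norm_num
  refine ⟨?_, ?_, ?_, ?_, ?_⟩ <;> unfold ent <;> rw [if_neg e0]
  · rw [if_pos rfl, sta_l h1, sta_r h1, st_dec h1, ← sc_app]; rfl
  · rw [if_neg (by norm_num), if_pos rfl, sta_l h1, sta_r h1, st_dec h1, ← sc_app]; rfl
  · rw [if_neg (by norm_num), if_neg (by norm_num), if_pos rfl, sta_l h1, sta_r h1, st_dec h1,
      ← sc_app]; rfl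
  · rw [if_neg (by norm_num), if_neg (by norm_num), if_neg (by norm_num), if_pos rfl, sta_l h1,
      sta_r h1, st_dec h1, ← sc_app]; rfl
  · norm_num

private theorem read (h1 : S_P40) (C : Chk) {k : ℕ} (a b c d : Fin k) (hab : a ≠ b) (hac : a ≠ c)
    (had : a ≠ d) (hbc : b ≠ c) (hbd : b ≠ d) (hcd : c ≠ d) (w : List (Fin k)) :
    ((∀ e ∈ w, e = a ∨ e = b ∨ e = c ∨ e = d) →
      w.foldl (next (codeC (HL a b c d) C)) 0
        = sta C (w.filterMap (rd a c)) (w.filterMap (rd b d))) ∧
    (¬ (∀ e ∈ w, e = a ∨ e = b ∨ e = c ∨ e = d) →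
      w.foldl (next (codeC (HL a b c d) C)) 0 = 1) := by
  induction w using List.reverseRecOn with
  | nil =>
    constructor
    · intro _
      show 0 = sta C [] []
      have : sc C [] = (0, 0, 0, 0) := rfl
      simp [sta, this, enc]
    · intro h
      exact absurd (fun e he => by simp at he) h
  | append_singleton w e ih =>
    have hf : (w ++ [e]).foldl (next (codeC (HL a b c d) C)) 0
        = next (codeC (HL a b c d) C) (w.foldl (next (codeC (HL a b c d) C)) 0) e := by
      rw [List.foldl_append]; rfl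
    have hB := BB_pos C
    have h1lt : 1 < 2 * (BB C * BB C) := by
      have := Nat.mul_pos hB hB
      omega
    have hall : (∀ e' ∈ w ++ [e], e' = a ∨ e' = b ∨ e' = c ∨ e' = d) ↔
        (∀ e' ∈ w, e' = a ∨ e' = b ∨ e' = c ∨ e' = d) ∧ (e = a ∨ e = b ∨ e = c ∨ e = d) := by
      constructor
      · intro h
        exact ⟨fun e' he' => h e' (List.mem_append_left _ he'), h e (by simp)⟩
      · rintro ⟨h, h'⟩ e' he'
        rcases List.mem_append.1 he' with h2 | h2
        · exact h e' h2
        · rw [List.mem_singleton] at h2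
          rw [h2]; exact h'
    rw [hf, hall]
    by_cases hw : ∀ e' ∈ w, e' = a ∨ e' = b ∨ e' = c ∨ e' = d
    · rw [ih.1 hw, next_eq C a b c d e _ (sta_lt h1 C _ _)]
      obtain ⟨t0, t1, t2, t3, t4⟩ :=
        ent_sta h1 C (w.filterMap (rd a c)) (w.filterMap (rd b d))
      have hu : (w ++ [e]).filterMap (rd a c) = w.filterMap (rd a c) ++ [e].filterMap (rd a c) :=
        List.filterMap_append
      have hv : (w ++ [e]).filterMap (rd b d) = w.filterMap (rd b d) ++ [e].filterMap (rd b d) :=
        List.filterMap_append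
      constructor
      · rintro ⟨-, he⟩
        rcases he with rfl | rfl | rfl | rfl
        · have hn : num e b c d e = 0 := by simp [num]
          rw [hn, t0, hu, hv]
          simp [rd, hab, had]
        · have hn : num a e c d e = 1 := by simp [num, hab.symm]
          rw [hn, t1, hu, hv]
          simp [rd, hab.symm, hbc]
        · have hn : num a b e d e = 2 := by simp [num, hac.symm, hbc.symm]
          rw [hn, t2, hu, hv]
          simp [rd, hac.symm, hbc.symm, hcd]
        · have hn : num a b c e e = 3 := by simp [num, had.symm, hbd.symm, hcd.symm]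
          rw [hn, t3, hu, hv]
          simp [rd, had.symm, hbd.symm, hcd.symm]
      · intro hne
        have he : ¬ (e = a ∨ e = b ∨ e = c ∨ e = d) := fun h => hne ⟨hw, h⟩
        push Not at he
        obtain ⟨n1, n2, n3, n4⟩ := he
        have hn : num a b c d e = 4 := by simp [num, n1, n2, n3, n4]
        rw [hn, t4]
    · constructor
      · rintro ⟨h, -⟩
        exact absurd h hw
      · intro _
        rw [ih.2 hw, next_eq C a b c d e _ h1lt]
        unfold ent
        rw [if_pos rfl]

/-- **ST-P4b.** -/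
theorem p4b (h1 : Pool.Agent.H724.ST.S_P40) : Pool.Agent.H724.ST.S_P4b := by
  intro C k a b c d hab hac had hbc hbd hcd w
  obtain ⟨r1, r2⟩ := read h1 C a b c d hab hac had hbc hbd hcd w
  have hmem : ∀ y, y ∈ (codeC (HL a b c d) C).2 ↔ ∃ x, x < BB C * BB C ∧
      acc C (dec (C.E + 1) (x % BB C)) (dec (C.E + 1) (x / BB C)) = true ∧ 2 * x = y := by
    intro y
    unfold codeC
    rw [List.mem_filterMap]
    constructor
    · rintro ⟨x, hx, hxy⟩
      rw [List.mem_range] at hx
      split_ifs at hxy with hacc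
      exact ⟨x, hx, hacc, Option.some.inj hxy⟩
    · rintro ⟨x, hx, hacc, hxy⟩
      refine ⟨x, List.mem_range.2 hx, ?_⟩
      rw [if_pos hacc, hxy]
  have hB := BB_pos C
  rw [hmem]
  constructor
  · rintro ⟨x, hx, hacc, hxy⟩
    by_cases hw : ∀ e ∈ w, e = a ∨ e = b ∨ e = c ∨ e = d
    · refine ⟨hw, ?_⟩
      rw [r1 hw] at hxy
      have hx' : x = sta C (w.filterMap (rd a c)) (w.filterMap (rd b d)) / 2 := by omega
      rw [hx', sta_l h1, sta_r h1, st_dec h1, st_dec h1] at hacc
      exact hacc
    · rw [r2 hw] at hxy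
      omega
  · rintro ⟨hw, hL⟩
    rw [r1 hw]
    refine ⟨sta C (w.filterMap (rd a c)) (w.filterMap (rd b d)) / 2, ?_, ?_, ?_⟩
    · have := sta_lt h1 C (w.filterMap (rd a c)) (w.filterMap (rd b d))
      omega
    · rw [sta_l h1, sta_r h1, st_dec h1, st_dec h1]
      exact hL
    · have := sta_mod C (w.filterMap (rd a c)) (w.filterMap (rd b d))
      omega

end Pool.Agent.H695.STP4b
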