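import Pool.Agent.H770.GS.UQ

/-!
# UQ4: nonnegativity
-/

set_option autoImplicit false

open MeasureTheory Set intervalIntegral

namespace Pool.Agent.H695.UQ4

open Pool.Agent.H770.GS

theorem win_nonneg {k : ℝ → ℝ} (hk : Continuous k) (hodd : ∀ x, k (-x) = -k x)
    (hpos : ∀ x, 0 ≤ x → 0 ≤ k x) {t v : ℝ} (ht : 0 ≤ t) (hv : 0 ≤ v) :
    0 ≤ ∫ u in (v - t)..(v + t), k u := by
  have ii : ∀ a b, IntervalIntegrable k volume a b := fun a b => hk.intervalIntegrable a b
  rcases le_total t v with h | h
  · exact intervalIntegral.integral_nonneg (by linarith) fun u hu => hpos u (by linarith [hu.1])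
  · rw [← intervalIntegral.integral_add_adjacent_intervals (ii (v - t) (t - v))
      (ii (t - v) (v + t))]
    have h1 := odd_int hodd (t - v)
    rw [neg_sub] at h1
    rw [h1, zero_add]
    exact intervalIntegral.integral_nonneg (by linarith) fun u hu => hpos u (by linarith [hu.1])

/-- **UQ4**. -/
theorem pos : S_pos := by
  intro r z k hr hz hk hodd hpos
  refine ⟨fun t ht v hv => win_nonneg hk hodd hpos ht hv, ?_⟩
  intro v hv
  have hc : Continuous fun u => k (v + z * u) := by fun_prop
  have hin : ∀ s, 0 ≤ s → 0 ≤ ∫ u in (-s)..s, k (v + z * u) := by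
    intro s hs
    rcases eq_or_lt_of_le hz with h0 | h0
    · rw [← h0]
      simp only [zero_mul, add_zero, intervalIntegral.integral_const, smul_eq_mul]
      have := hpos v hv
      exact mul_nonneg (by linarith) this
    · have hne : z ≠ 0 := h0.ne'
      have e : ∫ u in (-s)..s, k (v + z * u) = z⁻¹ * ∫ u in (v - z * s)..(v + z * s), k u := by
        rw [intervalIntegral.integral_comp_add_mul _ hne]
        simp only [smul_eq_mul]
        congr 2
        ring
      rw [e]
      exact mul_nonneg (inv_nonneg.2 hz) (win_nonneg hk hodd hpos (mul_nonneg hz hs) hv)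
  unfold Pool.Agent.H770.GS.cv
  rw [mix hc r]
  refine add_nonneg (mul_nonneg (W_pos r).le (hin r hr.le)) ?_
  exact intervalIntegral.integral_nonneg hr.le fun s hs =>
    mul_nonneg (mul_nonneg hs.1 (W_pos s).le) (hin s hs.1)

end Pool.Agent.H695.UQ4
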